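import Mathlib
import Pool.Agent.W66.XE

set_option autoImplicit false

/-!
# Near pairs: the sieve on a short block
-/

namespace Pool.Agent.K3h13.RB

open Finset Filter Topology MeasureTheory
open Pool.Agent.W66 (MM MM_ne dvd_primorial le_of_dvd_primorial two_dvd_MM lt_of_not_dvd_MM VV_le_log
  inv_factor_le sift_two no_mid_prime exp_half_facts)
open Pool.Agent.W66X (ratio_bound_D)
open Pool.Agent.H305R2 (roughPart roughPart_prime SM SM_pos ZZ ZZ_nonneg VV VV_nonneg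
  ff NN measurable_ff measurable_NN ff_nonneg ff_le_one integrableOn_ff log_nat_tendsto)
open Pool.Agent.Helper112.E456.SieveAux (DD)

/-- the sieve bound for the pairs `(N, b ^ h N + r)` with `N` in a block of length `H ≥ e ^ (c p)`;
`r ≠ 0` may be negative -/
lemma near_zH {b : ℕ} (hb : 2 ≤ b) (D : ℕ) {c : ℝ} (hc : 0 < c) : ∃ C : ℝ, 0 < C ∧
    ∀ᶠ p : ℕ in atTop, ∀ (h : ℕ) (r : ℤ),
    h ≤ p → r ≠ 0 → r.natAbs ≤ b ^ (D * p) → ∀ Y : ℝ, Real.log b / 2 * p ≤ Y → ∀ N0 H : ℕ,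
    Real.exp Y ≤ N0 + 1 → Real.exp (c * p) ≤ H → (H : ℝ) ≤ 9 * Real.exp Y →
    2 * r.natAbs ≤ b ^ h * (N0 - 1) → ∀ S : Finset ℕ,
    S ⊆ Ico N0 (N0 + H) →
    (∀ N ∈ S, ((roughPart p N).Prime ∧ ((N / roughPart p N : ℕ) : ℝ) < Real.exp (Y / 2)) ∧
      ((roughPart (p + h) (((b ^ h * N : ℕ) : ℤ) + r).toNat).Prime ∧
        ((((((b ^ h * N : ℕ) : ℤ) + r).toNat) / roughPart (p + h) ((((b ^ h * N : ℕ) : ℤ) + r).toNat) : ℕ) : ℝ) <
          Real.exp (Y / 2))) →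
    (S.card : ℝ) ≤ C * (Real.log p / p) ^ 2 * H := by
  obtain ⟨C0, hC0, hsv⟩ := sift_two
  obtain ⟨C1, hC1, hrat⟩ := ratio_bound_D hb D
  have hlb : 0 < Real.log b := Real.log_pos (by exact_mod_cast hb)
  refine ⟨C0 * (2 * C1) ^ 2 / c ^ 2, by positivity, ?_⟩
  obtain ⟨P, hP⟩ := eventually_atTop.1 hrat
  have hlarge : ∀ᶠ p : ℕ in atTop, 16 * 2 / Real.log b < p :=
    tendsto_natCast_atTop_atTop.eventually_gt_atTop _
  have hlarge2 : ∀ᶠ p : ℕ in atTop, 1 / c < p :=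
    tendsto_natCast_atTop_atTop.eventually_gt_atTop _
  filter_upwards [eventually_ge_atTop P, hlarge, eventually_ge_atTop 2, hlarge2] with p hpP hpl hp2 hpc
    h r hhp hr hrb Y hY N0 H hN0gt' hHlo hHhi hrN S hS hSc
  have hp2' : (2 : ℝ) ≤ p := by exact_mod_cast hp2
  have hp0 : (0 : ℝ) < p := by linarith
  have hY16 : 16 ≤ Y := by
    rw [div_lt_iff₀ hlb] at hpl
    nlinarith
  have hcp1 : 1 < c * p := by
    rw [div_lt_iff₀ hc] at hpc
    linarith
  set q := p + h with hq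
  have hEpos := Real.exp_pos Y
  have hE17 : (17 : ℝ) ≤ Real.exp Y := by have := Real.add_one_le_exp Y; linarith
  have hN0pos : 2 ≤ N0 := by
    have : (2 : ℝ) < ((N0 + 1 : ℕ) : ℝ) := by push_cast; linarith
    have : 2 < N0 + 1 := by exact_mod_cast this
    omega
  have hH2r : (2 : ℝ) ≤ H := by
    have := Real.add_one_le_exp (c * p)
    linarith
  have hH0 : (0 : ℝ) < H := by linarith
  have hH2 : 2 ≤ H := by exact_mod_cast hH2r
  have hE2Y : 9 * Real.exp Y ≤ Real.exp (2 * Y) := by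
    have : Real.exp (2 * Y) = Real.exp Y * Real.exp Y := by rw [← Real.exp_add]; ring_nf
    rw [this]; nlinarith
  have hz : (H : ℝ) ^ ((1 : ℝ) / 8) ≤ Real.exp (Y / 4) := by
    calc (H : ℝ) ^ ((1 : ℝ) / 8) ≤ (Real.exp (2 * Y)) ^ ((1 : ℝ) / 8) :=
          Real.rpow_le_rpow hH0.le (hHhi.trans hE2Y) (by norm_num)
      _ = Real.exp (Y / 4) := by rw [← Real.exp_mul]; ring_nf
  have hzS : Real.exp (Y / 4) * Real.exp (Y / 2) ≤ N0 / 2 := by
    rw [← Real.exp_add]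
    have e1 : Real.exp Y = Real.exp (Y / 4 + Y / 2) * Real.exp (Y / 4) := by
      rw [← Real.exp_add]; ring_nf
    have e2 : (5 : ℝ) ≤ Real.exp (Y / 4) := by have := Real.add_one_le_exp (Y / 4); linarith
    have e3 := Real.exp_pos (Y / 4 + Y / 2)
    nlinarith
  have hzS' : Real.exp (Y / 4) * Real.exp (Y / 2) ≤ N0 := by
    have : (0 : ℝ) ≤ N0 := Nat.cast_nonneg _
    linarith
  set T := S.image (fun N => N - (N0 - 1)) with hT
  have hcard : S.card = T.card := by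
    rw [hT, Finset.card_image_of_injOn]
    intro x hx y hy hxy
    have h1 := mem_Ico.1 (hS hx)
    have h2 := mem_Ico.1 (hS hy)
    simp only at hxy
    omega
  have hTm : ∀ n ∈ T, 1 ≤ n ∧ n ≤ H ∧ n + (N0 - 1) ∈ S := by
    intro n hn
    rw [hT, mem_image] at hn
    obtain ⟨N, hN, rfl⟩ := hn
    have h1 := mem_Ico.1 (hS hN)
    have e : N - (N0 - 1) + (N0 - 1) = N := by omega
    rw [e]
    exact ⟨by omega, by omega, hN⟩
  have hB1 : 1 ≤ b ^ h := Nat.one_le_pow _ _ (by omega)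
  -- second coefficient
  obtain ⟨b2, hb2⟩ : ∃ b2 : ℕ, ((b2 : ℕ) : ℤ) = ((b ^ h * (N0 - 1) : ℕ) : ℤ) + r := by
    refine ⟨(((b ^ h * (N0 - 1) : ℕ) : ℤ) + r).toNat, ?_⟩
    rw [Int.toNat_of_nonneg]
    have h1 : (r.natAbs : ℤ) ≤ ((b ^ h * (N0 - 1) : ℕ) : ℤ) := by
      have : r.natAbs ≤ b ^ h * (N0 - 1) := by omega
      exact_mod_cast this
    have h2 : -(r.natAbs : ℤ) ≤ r := by omega
    linarith
  have hform : ∀ n : ℕ, (((b ^ h * (n + (N0 - 1)) : ℕ) : ℤ) + r).toNat = b ^ h * n + b2 := by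
    intro n
    have : ((b ^ h * (n + (N0 - 1)) : ℕ) : ℤ) + r = ((b ^ h * n + b2 : ℕ) : ℤ) := by
      push_cast
      rw [hb2]
      push_cast
      ring
    rw [this]
    exact Int.toNat_natCast _
  have hlow : ∀ n : ℕ, 1 ≤ n → (N0 : ℝ) / 2 ≤ ((b ^ h * n + b2 : ℕ) : ℝ) := by
    intro n hn
    have h1 : N0 ≤ 2 * (b ^ h * n + b2) := by
      have h2 : (2 * (b2 : ℤ)) ≥ ((b ^ h * (N0 - 1) : ℕ) : ℤ) := by
        have h3 : 2 * (r.natAbs : ℤ) ≤ ((b ^ h * (N0 - 1) : ℕ) : ℤ) := by exact_mod_cast hrN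
        have h4 : -(r.natAbs : ℤ) ≤ r := by omega
        rw [hb2]
        linarith
      have h5 : b ^ h * (N0 - 1) ≤ 2 * b2 := by exact_mod_cast h2
      have h6 : N0 - 1 ≤ b ^ h * (N0 - 1) := Nat.le_mul_of_pos_left _ (by omega)
      have h7 : 1 ≤ b ^ h * n := Nat.mul_pos (by omega) hn
      omega
    have h2 : (N0 : ℝ) ≤ 2 * ((b ^ h * n + b2 : ℕ) : ℝ) := by exact_mod_cast h1
    linarith
  have hr0 : 0 < r.natAbs := Int.natAbs_pos.2 hr
  have hq2 : 2 ≤ q := by omega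
  have hM0 : MM q b h r.natAbs ≠ 0 := MM_ne hb hr0
  have hDD : DD 1 (N0 - 1) (b ^ h) b2 ∣ MM q b h r.natAbs := by
    have e : DD 1 (N0 - 1) (b ^ h) b2 = b ^ h * r.natAbs := by
      unfold DD
      have e2 : ((((1 * b2 : ℕ) : ℤ)) - ((b ^ h * (N0 - 1) : ℕ) : ℤ)).natAbs = r.natAbs := by
        have : ((((1 * b2 : ℕ) : ℤ)) - ((b ^ h * (N0 - 1) : ℕ) : ℤ)) = r := by
          rw [one_mul, hb2]; ring
        rw [this]
      rw [e2, one_mul]
    rw [e]; unfold MM; exact dvd_mul_left _ _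
  have hmain := hsv 1 (N0 - 1) (b ^ h) b2 H (MM q b h r.natAbs) one_pos (by omega)
    (two_dvd_MM hq2) hM0 hDD hH2 T (fun n hn => mem_Icc.2 ⟨(hTm n hn).1, (hTm n hn).2.1⟩) (by
      intro n hn l hl hlz hlM
      have hql := lt_of_not_dvd_MM hl hlM
      obtain ⟨hn1, _, hnS⟩ := hTm n hn
      have hQn := hSc _ hnS
      rw [hform n] at hQn
      have e1 : 1 * n + (N0 - 1) = n + (N0 - 1) := by ring
      rw [e1]
      have hnN : N0 ≤ n + (N0 - 1) := by omega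
      have hnN' : (N0 : ℝ) ≤ ((n + (N0 - 1) : ℕ) : ℝ) := by exact_mod_cast hnN
      constructor
      · exact no_mid_prime hQn.1.1 hQn.1.2 (hzS'.trans hnN') hl (by omega) (hlz.trans hz)
      · exact no_mid_prime hQn.2.1 hQn.2.2 (hzS.trans (hlow n hn1)) hl hql (hlz.trans hz))
  have hr1 := hP q (by omega) h r.natAbs hr0 (hrb.trans (Nat.pow_le_pow_right (by omega)
    (Nat.mul_le_mul_left _ (by omega))))
  have hlq : Real.log q ≤ 2 * Real.log p := by
    have hq2p : (q : ℝ) ≤ p * p := by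
      have : q ≤ p * p := by nlinarith
      exact_mod_cast this
    calc Real.log q ≤ Real.log (p * p) := Real.log_le_log (by positivity) hq2p
      _ = 2 * Real.log p := by rw [Real.log_mul hp0.ne' hp0.ne']; ring
  have hlq0 : 0 ≤ Real.log q := Real.log_natCast_nonneg q
  have hlp0 : 0 ≤ Real.log p := Real.log_natCast_nonneg p
  have hr2 : ((MM q b h r.natAbs : ℕ) : ℝ) / (Nat.totient (MM q b h r.natAbs) : ℝ) ≤ 2 * C1 * Real.log p := by
    calc _ ≤ C1 * Real.log q := hr1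
      _ ≤ C1 * (2 * Real.log p) := by gcongr
      _ = _ := by ring
  have hr00 : 0 ≤ ((MM q b h r.natAbs : ℕ) : ℝ) / (Nat.totient (MM q b h r.natAbs) : ℝ) := by positivity
  have hlogH : c * p ≤ Real.log H := by
    rw [Real.le_log_iff_exp_le hH0]
    exact hHlo
  have hlbp : 0 < c * p := by positivity
  rw [hcard]
  calc (T.card : ℝ) ≤ C0 * (((MM q b h r.natAbs : ℕ) : ℝ) / (Nat.totient (MM q b h r.natAbs) : ℝ)) ^ 2 * H /
        (Real.log H) ^ 2 := hmain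
    _ ≤ C0 * (2 * C1 * Real.log p) ^ 2 * H / (c * p) ^ 2 := by
        gcongr
    _ = _ := by field_simp

end Pool.Agent.K3h13.RB
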