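import Mathlib
import Pool.Agent.K3h13.RB.RA
import Pool.Agent.W66.XF

set_option autoImplicit false

/-!
# Near pairs over an integer base with a slowly varying shift: auxiliary lemmas
-/

namespace Pool.Agent.K3h13.RB

open Finset Filter Topology MeasureTheory
open Pool.Agent.H447R2.ML (Sh)
open Pool.Agent.H305R2 (roughPart ff NN measurable_ff measurable_NN ff_nonneg ff_le_one integral_ind
  integral_ind_le)

/-- the integral of the indicator of finitely many values along a shift phase -/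
lemma ind_sh {a a0 a1 : ℝ} {p : ℕ} {y y' : ℝ → ℝ} (h : Sh a a0 a1 p y y') (hp : 3 ≤ p) {s t : ℝ}
    (hs : a0 ≤ s) (hst : s ≤ t) (ht : t ≤ a1) (F : Finset ℕ) (hF : ∀ m ∈ F, 1 ≤ m) :
    ∫ x in Set.Ioc s t, (if NN (y x) ∈ F then (1 : ℝ) else 0) ≤ 2 * ∑ m ∈ F, 1 / (m : ℝ) := by
  have hmeasF : Measurable (fun u : ℝ => if NN u ∈ F then (1 : ℝ) else 0) :=
    (measurable_from_nat (f := fun n : ℕ => if n ∈ F then (1 : ℝ) else 0)).comp measurable_NN
  have h2 := (Sh.cov h hp hs hst ht (F := fun u => if NN u ∈ F then (1 : ℝ) else 0) hmeasF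
    (fun x => by split_ifs <;> norm_num) (fun x => by split_ifs <;> norm_num)).1
  have h3 : ∫ u in Set.Ioc (y s) (y t), (if NN u ∈ F then (1 : ℝ) else 0) ≤ ∑ m ∈ F, 1 / (m : ℝ) := by
    calc _ = _ := integral_ind F hF _ _
      _ ≤ ∑ m ∈ F, 1 / (m : ℝ) := Finset.sum_le_sum fun m hm => integral_ind_le (hF m hm) _ _
  have h4 : 1 / (p : ℝ) ≤ 1 / 3 :=
    one_div_le_one_div_of_le (by norm_num) (by exact_mod_cast hp)
  have h5 : 0 ≤ ∫ x in Set.Ioc s t, (if NN (y x) ∈ F then (1 : ℝ) else 0) :=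
    integral_nonneg fun t => by simp only [Pi.zero_apply]; split_ifs <;> norm_num
  have h6 : (1 - 1 / (p : ℝ)) * ∫ x in Set.Ioc s t, (if NN (y x) ∈ F then (1 : ℝ) else 0) ≤
      ∑ m ∈ F, 1 / (m : ℝ) := le_trans h2 h3
  have h7 := mul_le_mul_of_nonneg_right (show 1 / 2 ≤ 1 - 1 / (p : ℝ) by linarith) h5
  linarith

/-- the arithmetic of the two truncations -/
lemma pair_arithZ {B : ℕ} (hB0 : 0 < B) {N M : ℕ} {x k k0 : ℝ} (h1 : (N : ℝ) < x) (h2 : x ≤ N + 1)
    (h3 : (M : ℝ) < B * x + k) (h4 : B * x + k ≤ M + 1) (hk : |k - k0| ≤ B) :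
    ⌊k0⌋ - B ≤ (M : ℤ) - B * N ∧ (M : ℤ) - B * N ≤ ⌊k0⌋ - B + 3 * B := by
  have hB : (0 : ℝ) < B := by exact_mod_cast hB0
  have hBx1 := mul_lt_mul_of_pos_left h1 hB
  have hBx2 := mul_le_mul_of_nonneg_left h2 hB.le
  have hk1 := Int.floor_le k0
  have hk2 := Int.lt_floor_add_one k0
  have hk3 := abs_le.1 hk
  set r : ℤ := (M : ℤ) - B * N with hr
  have hrr : (r : ℝ) = M - B * N := by rw [hr]; push_cast; ring
  constructor
  · have : ((⌊k0⌋ - B : ℤ) : ℝ) < ((r + 1 : ℤ) : ℝ) := by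
      push_cast
      rw [hrr]
      linarith
    have : ⌊k0⌋ - B < r + 1 := by exact_mod_cast this
    omega
  · have : (r : ℝ) < ((⌊k0⌋ - B + 3 * B + 1 : ℤ) : ℝ) := by
      push_cast
      rw [hrr]
      linarith
    have : r < ⌊k0⌋ - B + 3 * B + 1 := by exact_mod_cast this
    omega

/-- exponential growth beats a linear factor -/
lemma lip_small {L κ C c : ℝ} (hκ : 1 ≤ κ) (hc : c < L - Real.log κ) (e : ℝ) :
    ∀ᶠ p : ℕ in atTop, C * (3 * p + 2) * κ ^ p * Real.exp (c * p) ≤ Real.exp (L * p + e) := by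
  set η := L - Real.log κ - c with hη
  have hη0 : 0 < η := by rw [hη]; linarith
  have h3 := (Real.tendsto_pow_mul_exp_neg_atTop_nhds_zero 1).comp
    ((tendsto_natCast_atTop_atTop (R := ℝ)).const_mul_atTop hη0)
  filter_upwards [h3.eventually_lt_const (show 0 < η * Real.exp e / (5 * |C| + 1) by positivity),
    eventually_ge_atTop 1] with p hp hp1
  have hp1' : (1 : ℝ) ≤ p := by exact_mod_cast hp1
  simp only [Function.comp, pow_one] at hp
  rw [lt_div_iff₀ (by positivity)] at hp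
  have hκp : κ ^ p = Real.exp (Real.log κ * p) := by
    rw [mul_comm, Real.exp_nat_mul, Real.exp_log (by linarith)]
  have e1 : Real.exp (L * p + e) = Real.exp (η * p) * Real.exp e * (Real.exp (Real.log κ * p) *
      Real.exp (c * p)) := by
    rw [← Real.exp_add, ← Real.exp_add, ← Real.exp_add, hη]
    congr 1
    ring
  rw [hκp, e1, mul_assoc]
  refine mul_le_mul_of_nonneg_right ?_ (by positivity)
  have h4 : C * (3 * p + 2) ≤ (5 * |C| + 1) * p := by
    have h5 := le_abs_self C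
    have h6 := abs_nonneg C
    have h7 : C * (3 * p + 2) ≤ |C| * (3 * p + 2) := mul_le_mul_of_nonneg_right h5 (by linarith)
    nlinarith
  refine h4.trans ?_
  rw [Real.exp_neg] at hp
  have h8 := Real.exp_pos (η * (p : ℝ))
  have h9 : η * p * (5 * |C| + 1) < η * Real.exp e * Real.exp (η * p) := by
    have := mul_lt_mul_of_pos_right hp h8
    calc η * p * (5 * |C| + 1) = η * p * (Real.exp (η * p))⁻¹ * (5 * |C| + 1) * Real.exp (η * p) := by
          field_simp
      _ < _ := this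
  have h10 : p * (5 * |C| + 1) < Real.exp e * Real.exp (η * p) := by
    by_contra hcon
    push Not at hcon
    have := mul_le_mul_of_nonneg_left hcon hη0.le
    linarith
  linarith

/-- the counting of the pairs of one block -/
lemma block_count {B : ℕ} {n0 H : ℕ} {k : ℤ} {Q : ℕ × ℤ → Prop} [DecidablePred Q] {X : ℝ}
    (hr : ∀ r ∈ Finset.Icc k (k + 3 * B), ∀ S : Finset ℕ, S ⊆ Ico n0 (n0 + H) →
      (∀ N ∈ S, Q (N, r)) → (S.card : ℝ) ≤ X) :
    ((((Ico n0 (n0 + H)) ×ˢ (Finset.Icc k (k + 3 * B))).filter Q).card : ℝ) ≤ (3 * B + 1) * X := by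
  classical
  set G := ((Ico n0 (n0 + H)) ×ˢ (Finset.Icc k (k + 3 * B))).filter Q with hG
  have h1 := Finset.card_eq_sum_card_fiberwise (f := fun x : ℕ × ℤ => x.2) (s := G)
    (t := Finset.Icc k (k + 3 * B)) (by
      intro x hx
      have hx' := (mem_filter.1 (Finset.mem_coe.1 hx)).1
      exact Finset.mem_coe.2 (mem_product.1 hx').2)
  rw [h1]
  push_cast
  have h2 : ∀ r ∈ Finset.Icc k (k + 3 * B), ((G.filter (fun x => x.2 = r)).card : ℝ) ≤ X := by
    intro r hrr
    have hinj3 : Set.InjOn (fun x : ℕ × ℤ => x.1) (G.filter (fun x => x.2 = r) : Set (ℕ × ℤ)) := by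
      rintro ⟨x1, x2⟩ hx ⟨y1, y2⟩ hy hxy
      rw [Finset.mem_coe, mem_filter] at hx hy
      have e1 : x2 = r := hx.2
      have e2 : y2 = r := hy.2
      have e3 : x1 = y1 := hxy
      rw [e1, e2, e3]
    rw [← Finset.card_image_of_injOn hinj3]
    refine hr r hrr _ ?_ ?_
    · intro N hN
      rw [mem_image] at hN
      obtain ⟨x, hx, rfl⟩ := hN
      exact (mem_product.1 (mem_filter.1 (mem_filter.1 hx).1).1).1
    · intro N hN
      rw [mem_image] at hN
      obtain ⟨x, hx, rfl⟩ := hN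
      have h3 := (mem_filter.1 (mem_filter.1 hx).1).2
      have h4 := (mem_filter.1 hx).2
      rw [← h4]
      exact h3
  calc ∑ r ∈ Finset.Icc k (k + 3 * B), ((G.filter (fun x => x.2 = r)).card : ℝ) ≤
        ∑ r ∈ Finset.Icc k (k + 3 * B), X := Finset.sum_le_sum h2
    _ = ((Finset.Icc k (k + 3 * B)).card : ℝ) * X := by rw [Finset.sum_const, nsmul_eq_mul]
    _ = (3 * B + 1) * X := by
        rw [Int.card_Icc]
        congr 1
        have : (k + 3 * (B : ℤ) + 1 - k).toNat = 3 * B + 1 := by omega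
        rw [this]
        push_cast
        ring

end Pool.Agent.K3h13.RB
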