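import Mathlib
import Pool.Agent.K3h13.RB.RB
import Pool.Agent.W66.RE

set_option autoImplicit false

/-!
# Near pairs over an integer base with a slowly varying shift: more auxiliary lemmas
-/

namespace Pool.Agent.K3h13.RB

open Finset Filter Topology MeasureTheory
open Pool.Agent.H447R2.ML (Sh)
open Pool.Agent.W66 (NN_bounds)
open Pool.Agent.H305R2 (roughPart ff NN measurable_ff measurable_NN ff_nonneg ff_le_one)

/-- the scales of the blocks -/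
lemma scale {E T : ℝ} (hT1 : 1 ≤ T) (hTE : 25 * T ≤ E) : ∃ n : ℕ, 0 < n ∧ 1 / (n : ℝ) ≤ T / E ∧
    T ≤ ((⌈16 * E / n⌉₊ + 2 : ℕ) : ℝ) ∧ ((⌈16 * E / n⌉₊ + 2 : ℕ) : ℝ) ≤ 9 * E ∧
    (n : ℝ) * ((⌈16 * E / n⌉₊ + 2 : ℕ) : ℝ) ≤ 22 * E := by
  have hT0 : 0 < T := by linarith
  have hEpos : 0 < E := by linarith
  have hET : 0 < E / T := by positivity
  refine ⟨⌈E / T⌉₊, Nat.ceil_pos.2 hET, ?_⟩
  set n := ⌈E / T⌉₊ with hn
  have hn0 : 0 < n := Nat.ceil_pos.2 hET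
  have hnr0 : (0 : ℝ) < n := by exact_mod_cast hn0
  have hnlo : E / T ≤ n := Nat.le_ceil _
  have hET25 : 25 ≤ E / T := by rw [le_div_iff₀ hT0]; exact hTE
  have hnhi : (n : ℝ) ≤ 2 * (E / T) := by
    have := Nat.ceil_lt_add_one hET.le
    rw [← hn] at this
    linarith
  have hinvn : 1 / (n : ℝ) ≤ T / E := by
    rw [div_le_div_iff₀ hnr0 hEpos]
    rw [div_le_iff₀ hT0] at hnlo
    linarith
  set H := ⌈16 * E / n⌉₊ + 2 with hH
  have hHlo : T ≤ H := by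
    have h1 : 16 * E / n ≤ (⌈16 * E / n⌉₊ : ℝ) := Nat.le_ceil _
    have h2 : 8 * T ≤ 16 * E / n := by
      rw [le_div_iff₀ hnr0]
      calc 8 * T * n ≤ 8 * T * (2 * (E / T)) := mul_le_mul_of_nonneg_left hnhi (by positivity)
        _ = 16 * E := by field_simp; ring
    rw [hH]; push_cast
    linarith
  have hHhi0 : (H : ℝ) ≤ 16 * E / n + 3 := by
    have := Nat.ceil_lt_add_one (show (0 : ℝ) ≤ 16 * E / n by positivity)
    rw [hH]; push_cast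
    linarith
  have hHhi : (H : ℝ) ≤ 9 * E := by
    have h1 : 16 * E / n ≤ 16 * T := by
      rw [div_le_iff₀ hnr0]
      rw [div_le_iff₀ hT0] at hnlo
      calc 16 * E ≤ 16 * (n * T) := by linarith
        _ = _ := by ring
    linarith
  refine ⟨hinvn, hHlo, hHhi, ?_⟩
  calc (n : ℝ) * H ≤ n * (16 * E / n + 3) := mul_le_mul_of_nonneg_left hHhi0 hnr0.le
    _ = 16 * E + 3 * n := by field_simp
    _ ≤ 16 * E + 3 * (2 * (E / T)) := by linarith
    _ ≤ 16 * E + 3 * (2 * E) := by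
        have : E / T ≤ E := div_le_self hEpos.le hT1
        linarith
    _ = _ := by ring

/-- the Lipschitz constant of the shift of a pair -/
lemma shift_lip {κ C s t : ℝ} {b p h : ℕ} (hκ0 : 0 ≤ κ) (hκ : κ ≤ b) (hC0 : 0 ≤ C) (hhp : h ≤ p)
    {gp gq : ℝ → ℝ}
    (h1 : |gq s - gq t| ≤ C * (((p + h : ℕ) : ℝ) + 1) * κ ^ (p + h) * |s - t|)
    (h2 : |gp s - gp t| ≤ C * (p + 1) * κ ^ p * |s - t|) :
    |(gq s - ((b ^ h : ℕ) : ℝ) * gp s) - (gq t - ((b ^ h : ℕ) : ℝ) * gp t)| ≤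
      ((b ^ h : ℕ) : ℝ) * (C * (3 * p + 2) * κ ^ p) * |s - t| := by
  have hBr : ((b ^ h : ℕ) : ℝ) = (b : ℝ) ^ h := by push_cast; rfl
  set B := b ^ h with hB
  have hBr0 : (0 : ℝ) ≤ (B : ℝ) := Nat.cast_nonneg _
  have h3 : κ ^ (p + h) ≤ κ ^ p * B := by
    rw [pow_add, hBr]
    exact mul_le_mul_of_nonneg_left (pow_le_pow_left₀ hκ0 hκ h) (by positivity)
  have h4 : ((p + h : ℕ) : ℝ) + 1 ≤ 2 * p + 1 := by
    have : ((p + h : ℕ) : ℝ) ≤ 2 * p := by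
      have : p + h ≤ 2 * p := by omega
      exact_mod_cast this
    linarith
  have h5 : C * (((p + h : ℕ) : ℝ) + 1) * κ ^ (p + h) ≤ C * (2 * p + 1) * (κ ^ p * B) :=
    mul_le_mul (mul_le_mul_of_nonneg_left h4 hC0) h3 (by positivity) (by positivity)
  have h6 : |(gq s - B * gp s) - (gq t - B * gp t)| ≤ |gq s - gq t| + B * |gp s - gp t| := by
    have e : (gq s - B * gp s) - (gq t - B * gp t) = (gq s - gq t) - B * (gp s - gp t) := by ring
    rw [e]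
    refine (abs_sub _ _).trans (le_of_eq ?_)
    rw [abs_mul, abs_of_nonneg hBr0]
  have h7 := abs_nonneg (s - t)
  calc _ ≤ |gq s - gq t| + B * |gp s - gp t| := h6
    _ ≤ C * (2 * p + 1) * (κ ^ p * B) * |s - t| + B * (C * (p + 1) * κ ^ p * |s - t|) :=
        add_le_add (h1.trans (mul_le_mul_of_nonneg_right h5 h7))
          (mul_le_mul_of_nonneg_left h2 hBr0)
    _ = _ := by ring

/-- the positions of the two integers -/
lemma pos_facts {B N M : ℕ} {E x X k k0 : ℝ} (hB0 : 0 < B) (hE17 : 17 ≤ E)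
    (h1 : (N : ℝ) < x) (h2 : x ≤ N + 1) (h3 : (M : ℝ) < X) (h4 : X ≤ M + 1) (hX : X = B * x + k)
    (x1 : 3 / 2 * E ≤ x) (x2 : x ≤ 6 * E) (x3 : B * (3 / 2 * E) ≤ X) (x4 : X ≤ B * (6 * E))
    (hk : |k - k0| ≤ B) :
    E ≤ N ∧ (N : ℝ) ≤ 6 * E ∧ B * E ≤ (M : ℝ) ∧ M ≤ ⌊B * (6 * E)⌋₊ ∧ 1 ≤ M ∧
      ⌊k0⌋ - B ≤ (M : ℤ) - B * N ∧ (M : ℤ) - B * N ≤ ⌊k0⌋ - B + 3 * B := by
  have hBr0 : (0 : ℝ) < (B : ℝ) := by exact_mod_cast hB0
  have hBr1 : (1 : ℝ) ≤ (B : ℝ) := by exact_mod_cast hB0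
  have h17 : 17 ≤ B * E := by nlinarith
  have hMlo : B * E ≤ (M : ℝ) := by linarith
  have hM1 : 1 ≤ M := by
    have : (0 : ℝ) < M := by linarith
    exact_mod_cast this
  have hMhi : M ≤ ⌊B * (6 * E)⌋₊ := by
    rw [Nat.le_floor_iff (by positivity)]
    linarith
  rw [hX] at h3 h4
  exact ⟨by linarith, by linarith, hMlo, hMhi, hM1, pair_arithZ hB0 h1 h2 h3 h4 hk⟩

/-- the first integer stays in a block -/
lemma block_pos {a a0 a1 : ℝ} {p : ℕ} {y y' : ℝ → ℝ} (h : Sh a a0 a1 p y y') (hp : 3 ≤ p) {s t : ℝ}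
    (hs : a0 ≤ s) (hst : s ≤ t) (ht : t ≤ a1) {n : ℕ} (hn : 0 < n) (hts : t - s ≤ 1 / n) {E : ℝ}
    (hE : 0 < E) (hx : Real.exp (y t) ≤ 6 * E) :
    NN (y s) ≤ NN (y t) ∧ NN (y t) < NN (y s) + (⌈16 * E / n⌉₊ + 2) := by
  have hnr0 : (0 : ℝ) < n := by exact_mod_cast hn
  have h3 := NN_bounds (y s)
  have h3' := NN_bounds (y t)
  have h4 := h.mvt hs hst ht
  have h6 : 1 / (p : ℝ) ≤ 1 / 3 := one_div_le_one_div_of_le (by norm_num) (by exact_mod_cast hp)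
  have hd : 0 ≤ t - s := by linarith
  constructor
  · have h5 : y s ≤ y t := by
      have h7 : 0 ≤ (1 - 1 / (p : ℝ)) * (t - s) := mul_nonneg (by linarith) hd
      linarith [h4.1]
    have h6 := Real.exp_le_exp.2 h5
    have h7 : (NN (y s) : ℝ) < ((NN (y t) + 1 : ℕ) : ℝ) := by
      push_cast
      linarith [h3'.2, h3.1]
    have : NN (y s) < NN (y t) + 1 := by exact_mod_cast h7
    omega
  · have h8 : y t - y s ≤ 4 / 3 * (1 / n) := by
      refine h4.2.trans ?_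
      exact mul_le_mul (by linarith) hts hd (by norm_num)
    have h9 : Real.exp (y t) - Real.exp (y s) ≤ Real.exp (y t) * (y t - y s) := by
      have h10 := Real.add_one_le_exp (-(y t - y s))
      have h11 : Real.exp (y s) = Real.exp (y t) * Real.exp (-(y t - y s)) := by
        rw [← Real.exp_add]; ring_nf
      rw [h11]
      have := mul_le_mul_of_nonneg_left h10 (Real.exp_pos (y t)).le
      linarith
    have h10 : Real.exp (y t) * (y t - y s) ≤ 6 * E * (4 / 3 * (1 / n)) := by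
      have h11 : Real.exp (y t) * (y t - y s) ≤ Real.exp (y t) * (4 / 3 * (1 / n)) :=
        mul_le_mul_of_nonneg_left h8 (Real.exp_pos _).le
      exact h11.trans (mul_le_mul_of_nonneg_right hx (by positivity))
    have h11 : 6 * E * (4 / 3 * (1 / n)) ≤ 16 * E / n := by
      have : 6 * E * (4 / 3 * (1 / n)) = 8 * E / n := by ring
      rw [this]
      exact div_le_div_of_nonneg_right (by linarith) hnr0.le
    have h12 : 16 * E / n ≤ (⌈16 * E / n⌉₊ : ℝ) := Nat.le_ceil _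
    have h13 : (NN (y t) : ℝ) < ((NN (y s) + (⌈16 * E / n⌉₊ + 2) : ℕ) : ℝ) := by
      push_cast
      linarith [h3'.1, h3.2]
    exact_mod_cast h13

/-- sizes of the differences of one block -/
lemma rbounds {B n0 b p : ℕ} {E k0 : ℝ} {r : ℤ} (hE17 : 17 ≤ E) (hB0 : 0 < B)
    (hk : |k0| ≤ B * E / 32) (hr1 : ⌊k0⌋ - B ≤ r) (hr2 : r ≤ ⌊k0⌋ - B + 3 * B) (hn : E ≤ n0)
    (hBE : (B : ℝ) * E ≤ (b : ℝ) ^ (3 * p)) :
    r.natAbs ≤ b ^ (3 * p) ∧ 2 * r.natAbs ≤ B * (n0 - 1) := by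
  have hBr0 : (0 : ℝ) < (B : ℝ) := by exact_mod_cast hB0
  have hBr1 : (1 : ℝ) ≤ (B : ℝ) := by exact_mod_cast hB0
  have h17 : 17 * B ≤ B * E := by nlinarith
  have h1 := abs_le.1 hk
  have h2 := Int.floor_le k0
  have h3 := Int.lt_floor_add_one k0
  have h4 : ((⌊k0⌋ - B : ℤ) : ℝ) ≤ r := by exact_mod_cast hr1
  have h5 : (r : ℝ) ≤ ((⌊k0⌋ - B + 3 * B : ℤ) : ℝ) := by exact_mod_cast hr2
  push_cast at h4 h5
  have h6 : (r.natAbs : ℝ) ≤ B * E / 32 + 5 * B := by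
    have h7 : (r.natAbs : ℝ) = |(r : ℝ)| := by rw [Nat.cast_natAbs]; push_cast; rfl
    rw [h7, abs_le]
    constructor <;> linarith
  have hn02 : 1 ≤ n0 := by
    have : (0 : ℝ) < (n0 : ℝ) := by linarith
    exact_mod_cast this
  constructor
  · have h7 : (r.natAbs : ℝ) ≤ ((b ^ (3 * p) : ℕ) : ℝ) := by
      push_cast
      linarith
    exact_mod_cast h7
  · have h3 : (B : ℝ) * (E - 1) ≤ B * (n0 - 1) := mul_le_mul_of_nonneg_left (by linarith) hBr0.le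
    have h2 : ((2 * r.natAbs : ℕ) : ℝ) ≤ ((B * (n0 - 1) : ℕ) : ℝ) := by
      push_cast [Nat.cast_sub hn02]
      linarith
    exact_mod_cast h2

/-- the sum over one block -/
lemma block_val {B n0 H : ℕ} {k : ℤ} {Q : ℕ × ℤ → Prop} [DecidablePred Q] {X D : ℝ} (hB0 : 0 < B)
    (hX : 0 ≤ X) (hD : 0 < D)
    (hQ : ∀ x, Q x → D ≤ ((((B * x.1 : ℕ) : ℤ) + x.2).toNat : ℝ))
    (hr : ∀ r ∈ Finset.Icc k (k + 3 * B), ∀ S : Finset ℕ, S ⊆ Ico n0 (n0 + H) →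
      (∀ N ∈ S, Q (N, r)) → (S.card : ℝ) ≤ X) :
    2 * ∑ m ∈ ((((Ico n0 (n0 + H)) ×ˢ (Finset.Icc k (k + 3 * B))).filter Q).image
      (fun x : ℕ × ℤ => (((B * x.1 : ℕ) : ℤ) + x.2).toNat)), 1 / (m : ℝ) ≤ 8 * (B * X) / D := by
  classical
  have hBr1 : (1 : ℝ) ≤ (B : ℝ) := by exact_mod_cast hB0
  set G := ((Ico n0 (n0 + H)) ×ˢ (Finset.Icc k (k + 3 * B))).filter Q with hG
  set F := G.image (fun x : ℕ × ℤ => (((B * x.1 : ℕ) : ℤ) + x.2).toNat) with hF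
  have hFr : ∀ m ∈ F, D ≤ (m : ℝ) := fun m hm => by
    obtain ⟨x, hx, rfl⟩ := mem_image.1 hm
    exact hQ x (mem_filter.1 hx).2
  have hcount := block_count (B := B) (n0 := n0) (H := H) (k := k) (Q := Q) (X := X) hr
  rw [← hG] at hcount
  have h1 : ∑ m ∈ F, 1 / (m : ℝ) ≤ F.card * (1 / D) := by
    calc ∑ m ∈ F, 1 / (m : ℝ) ≤ ∑ m ∈ F, 1 / D :=
          Finset.sum_le_sum fun m hm => one_div_le_one_div_of_le hD (hFr m hm)
      _ = _ := by rw [Finset.sum_const, nsmul_eq_mul]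
  have h2 : (F.card : ℝ) ≤ G.card := by exact_mod_cast Finset.card_image_le
  have h4 : (3 * (B : ℝ) + 1) * X ≤ (4 * B) * X := mul_le_mul_of_nonneg_right (by linarith) hX
  calc 2 * ∑ m ∈ F, 1 / (m : ℝ) ≤ 2 * (((4 * B) * X) * (1 / D)) := by
        refine mul_le_mul_of_nonneg_left (h1.trans ?_) (by norm_num)
        exact mul_le_mul_of_nonneg_right ((h2.trans hcount).trans h4) (by positivity)
    _ = _ := by ring

end Pool.Agent.K3h13.RB
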