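import Mathlib
import Pool.Agent.K3h13.RB.RB2

set_option autoImplicit false

/-!
# Near pairs over an integer base with a slowly varying shift
-/

namespace Pool.Agent.K3h13.RB

open Finset Filter Topology MeasureTheory
open Pool.Agent.W66 (exp_small large_smooth_count NN_bounds)
open Pool.Agent.W66X (sum_Ap2 exp_consts pert8)
open Pool.Agent.H447R2.ML (Sh)
open Pool.Agent.H305R2 (roughPart roughPart_prime ZZ ZZ_nonneg ZZ_le_exp
  ff NN measurable_ff measurable_NN ff_nonneg ff_le_one log_nat_tendsto)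

/-- the pairs `(N, r)` counted by the sieve -/
def Qp (p h B : ℕ) (S D : ℝ) (x : ℕ × ℤ) : Prop :=
  (x.2 ≠ 0 ∧ D ≤ ((((B * x.1 : ℕ) : ℤ) + x.2).toNat : ℝ)) ∧
    (((roughPart p x.1).Prime ∧ ((x.1 / roughPart p x.1 : ℕ) : ℝ) < S) ∧
      ((roughPart (p + h) (((B * x.1 : ℕ) : ℤ) + x.2).toNat).Prime ∧
        ((((((B * x.1 : ℕ) : ℤ) + x.2).toNat) / roughPart (p + h)
          ((((B * x.1 : ℕ) : ℤ) + x.2).toNat) : ℕ) : ℝ) < S))

open Classical in
/-- the pairs of one block -/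
noncomputable def G4 (p h B : ℕ) (S D : ℝ) (n0 H : ℕ) (k : ℤ) : Finset (ℕ × ℤ) :=
  ((Ico n0 (n0 + H)) ×ˢ (Finset.Icc k (k + 3 * B))).filter (Qp p h B S D)

/-- the second integers of one block -/
noncomputable def F4 (p h B : ℕ) (S D : ℝ) (n0 H : ℕ) (k : ℤ) : Finset ℕ :=
  (G4 p h B S D n0 H k).image (fun x : ℕ × ℤ => (((B * x.1 : ℕ) : ℤ) + x.2).toNat)

lemma ind0 (P : Prop) [Decidable P] : (0 : ℝ) ≤ if P then (1 : ℝ) else 0 := by
  split_ifs <;> norm_num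

open Classical in
/-- the classification of the pairs -/
lemma pt_cases {p h B N M N0 N1 X2 n0 H : ℕ} {S D : ℝ} {k : ℤ} {v : ℝ}
    (hv : v = if (roughPart p N).Prime then (if (roughPart (p + h) M).Prime then 1 else 0) else 0)
    (hN0 : N0 ≤ N) (hN1 : N ≤ N1) (hM1 : 1 ≤ M) (hM2 : M ≤ X2) (hD : D ≤ (M : ℝ))
    (hr1 : k ≤ (M : ℤ) - B * N) (hr2 : (M : ℤ) - B * N ≤ k + 3 * B)
    (hb1 : n0 ≤ N) (hb2 : N < n0 + H) :
    v ≤
      (((if N ∈ (Icc N0 N1).filter (fun m => (roughPart p m).Prime ∧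
          S ≤ ((m / roughPart p m : ℕ) : ℝ)) then (1 : ℝ) else 0) +
        if M ∈ ((Icc 1 X2).filter (fun m => (roughPart (p + h) m).Prime ∧
          S ≤ ((m / roughPart (p + h) m : ℕ) : ℝ))).filter (fun m : ℕ => D ≤ (m : ℝ))
          then (1 : ℝ) else 0) +
        if M ∈ ((Icc N0 N1).filter (fun N => (roughPart p N).Prime)).image (fun N => B * N)
          then (1 : ℝ) else 0) +
        if M ∈ F4 p h B S D n0 H k then (1 : ℝ) else 0 := by
  set F1 := (Icc N0 N1).filter (fun m => (roughPart p m).Prime ∧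
          S ≤ ((m / roughPart p m : ℕ) : ℝ)) with hF1
  set F2 := ((Icc 1 X2).filter (fun m => (roughPart (p + h) m).Prime ∧
          S ≤ ((m / roughPart (p + h) m : ℕ) : ℝ))).filter (fun m : ℕ => D ≤ (m : ℝ)) with hF2
  set F3 := ((Icc N0 N1).filter (fun N => (roughPart p N).Prime)).image (fun N => B * N) with hF3
  set F5 := F4 p h B S D n0 H k with hF5
  have a1 := ind0 (N ∈ F1)
  have a2 := ind0 (M ∈ F2)
  have a3 := ind0 (M ∈ F3)
  have a4 := ind0 (M ∈ F5)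
  rw [hv]
  by_cases h1 : (roughPart p N).Prime
  swap
  · rw [if_neg h1]
    clear hD
    linarith
  by_cases h2 : (roughPart (p + h) M).Prime
  swap
  · rw [if_pos h1, if_neg h2]
    clear hD
    linarith
  rw [if_pos h1, if_pos h2]
  by_cases c1 : S ≤ ((N / roughPart p N : ℕ) : ℝ)
  · rw [if_pos (show N ∈ F1 from mem_filter.2 ⟨mem_Icc.2 ⟨hN0, hN1⟩, h1, c1⟩)]
    clear hD c1
    linarith
  by_cases c2 : S ≤ ((M / roughPart (p + h) M : ℕ) : ℝ)
  · rw [if_pos (show M ∈ F2 from mem_filter.2 ⟨mem_filter.2 ⟨mem_Icc.2 ⟨hM1, hM2⟩, h2, c2⟩, hD⟩)]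
    clear hD c1 c2
    linarith
  by_cases c3 : (M : ℤ) - B * N = 0
  · have hm : M ∈ F3 := by
      rw [hF3, mem_image]
      refine ⟨N, mem_filter.2 ⟨mem_Icc.2 ⟨hN0, hN1⟩, h1⟩, ?_⟩
      have : (M : ℤ) = ((B * N : ℕ) : ℤ) := by push_cast; linarith
      exact_mod_cast this.symm
    rw [if_pos hm]
    clear hD c1 c2
    linarith
  have hm : M ∈ F5 := by
    have hval : (((B * N : ℕ) : ℤ) + ((M : ℤ) - B * N)).toNat = M := by
      have : ((B * N : ℕ) : ℤ) + ((M : ℤ) - B * N) = (M : ℤ) := by push_cast; ring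
      rw [this]
      exact Int.toNat_natCast M
    rw [hF5]
    unfold F4
    rw [mem_image]
    refine ⟨(N, (M : ℤ) - B * N), ?_, hval⟩
    unfold G4
    rw [mem_filter, mem_product, Finset.mem_Icc, mem_Ico]
    refine ⟨⟨⟨hb1, hb2⟩, hr1, hr2⟩, ?_⟩
    unfold Qp
    simp only
    rw [hval]
    exact ⟨⟨c3, hD⟩, ⟨h1, not_le.1 c1⟩, h2, not_le.1 c2⟩
  rw [if_pos hm]
  clear hD c1 c2
  linarith

open Classical in
/-- the bound of the sum over one block -/
lemma F4_sum {p h b B n0 H : ℕ} {S E k0 w C2 : ℝ} (hBb : B = b ^ h) (hB0 : 0 < B) (hE17 : 17 ≤ E)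
    (hC2 : 0 ≤ C2) (hk : |k0| ≤ B * E / 32) (hn : E ≤ n0)
    (hBE : (B : ℝ) * E ≤ (b : ℝ) ^ (3 * p))
    (hG : ∀ r : ℤ, r ≠ 0 → r.natAbs ≤ b ^ (3 * p) → 2 * r.natAbs ≤ b ^ h * (n0 - 1) →
      ∀ S' : Finset ℕ, S' ⊆ Ico n0 (n0 + H) →
      (∀ N ∈ S', ((roughPart p N).Prime ∧ ((N / roughPart p N : ℕ) : ℝ) < S) ∧
      ((roughPart (p + h) (((b ^ h * N : ℕ) : ℤ) + r).toNat).Prime ∧
        ((((((b ^ h * N : ℕ) : ℤ) + r).toNat) / roughPart (p + h) ((((b ^ h * N : ℕ) : ℤ) + r).toNat) : ℕ) : ℝ) <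
          S)) →
      (S'.card : ℝ) ≤ C2 * w ^ 2 * H) :
    2 * ∑ m ∈ F4 p h B S (B * E) n0 H (⌊k0⌋ - B), 1 / (m : ℝ) ≤ 8 * (C2 * w ^ 2 * H) / E := by
  have hBr0 : (0 : ℝ) < (B : ℝ) := by exact_mod_cast hB0
  have hE0 : 0 < E := by linarith
  have key := block_val (B := B) (n0 := n0) (H := H) (k := ⌊k0⌋ - B) (Q := Qp p h B S (B * E))
    (X := C2 * w ^ 2 * H) (D := B * E) hB0 (by positivity) (by positivity) (fun x hx => hx.1.2) (by
      intro r hr S' hS' hQS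
      rw [Finset.mem_Icc] at hr
      by_cases hr0 : r = 0
      · have : S' = ∅ := by
          rw [Finset.eq_empty_iff_forall_notMem]
          intro N hN
          exact (hQS N hN).1.1 hr0
        rw [this]
        simp only [Finset.card_empty, Nat.cast_zero]
        positivity
      · obtain ⟨h1, h2⟩ := rbounds hE17 hB0 hk hr.1 hr.2 hn hBE
        subst hBb
        exact hG r hr0 h1 h2 S' hS' fun N hN => (hQS N hN).2)
  unfold F4 G4
  refine key.trans (le_of_eq ?_)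
  field_simp

end Pool.Agent.K3h13.RB
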