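import Mathlib
import Pool.Agent.K3h13.RB.RC

set_option autoImplicit false

/-!
# Near pairs over an integer base with a slowly varying shift: the theorem
-/

namespace Pool.Agent.K3h13.RB

open Finset Filter Topology MeasureTheory
open Pool.Agent.W66 (exp_small large_smooth_count NN_bounds)
open Pool.Agent.W66X (sum_Ap2 exp_consts pert8)
open Pool.Agent.H447R2.ML (Sh)
open Pool.Agent.H305R2 (roughPart roughPart_prime ZZ ZZ_nonneg ZZ_le_exp
  ff NN measurable_ff measurable_NN ff_nonneg ff_le_one log_nat_tendsto)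

/-- the first set -/
lemma sumF1 {p N0 N1 : ℕ} {E S w : ℝ} (hE17 : 17 ≤ E) (hN0 : E < N0 + 1) (hN1 : (N1 : ℝ) ≤ 8 * E)
    (hS0 : 0 < S) (hd : S ^ (-(1 / 2) : ℝ) * ZZ p ≤ w ^ 2) :
    ∑ m ∈ (Icc N0 N1).filter (fun m => (roughPart p m).Prime ∧ S ≤ ((m / roughPart p m : ℕ) : ℝ)),
      1 / (m : ℝ) ≤ 16 * w ^ 2 := by
  have hE0 : 0 < E := by linarith
  have hN01 : 1 ≤ N0 := by
    have : (0 : ℝ) < N0 := by linarith
    exact_mod_cast this
  set F1 := (Icc N0 N1).filter (fun m => (roughPart p m).Prime ∧ S ≤ ((m / roughPart p m : ℕ) : ℝ))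
    with hF1
  have h1 : (F1.card : ℝ) ≤ 8 * E * w ^ 2 := by
    have h2 : (F1.card : ℝ) ≤ (((Icc 1 N1).filter (fun m => (roughPart p m).Prime ∧
        S ≤ ((m / roughPart p m : ℕ) : ℝ))).card : ℝ) := by
      have : F1 ⊆ (Icc 1 N1).filter (fun m => (roughPart p m).Prime ∧
        S ≤ ((m / roughPart p m : ℕ) : ℝ)) := by
        intro m hm
        rw [hF1, mem_filter, mem_Icc] at hm
        rw [mem_filter, mem_Icc]
        exact ⟨⟨by omega, hm.1.2⟩, hm.2⟩
      exact_mod_cast Finset.card_le_card this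
    refine h2.trans ((large_smooth_count p N1 hS0).trans ?_)
    exact mul_le_mul hN1 hd (mul_nonneg (by positivity) (ZZ_nonneg p)) (by positivity)
  have h2 : ∀ m ∈ F1, 1 / (m : ℝ) ≤ 2 / E := by
    intro m hm
    rw [hF1, mem_filter, mem_Icc] at hm
    have h3 : (N0 : ℝ) ≤ m := by exact_mod_cast hm.1.1
    have h4 : E / 2 ≤ m := by linarith
    calc 1 / (m : ℝ) ≤ 1 / (E / 2) := one_div_le_one_div_of_le (by positivity) h4
      _ = 2 / E := by field_simp
  calc ∑ m ∈ F1, 1 / (m : ℝ) ≤ ∑ m ∈ F1, 2 / E := Finset.sum_le_sum h2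
    _ = F1.card * (2 / E) := by rw [Finset.sum_const, nsmul_eq_mul]
    _ ≤ (8 * E * w ^ 2) * (2 / E) := mul_le_mul_of_nonneg_right h1 (by positivity)
    _ = _ := by field_simp; ring

/-- the second set -/
lemma sumF2 {q : ℕ} {D S w : ℝ} (hD0 : 0 < D)
    (hS0 : 0 < S) (hd : S ^ (-(1 / 2) : ℝ) * ZZ q ≤ w ^ 2) :
    ∑ m ∈ ((Icc 1 ⌊6 * D⌋₊).filter (fun m => (roughPart q m).Prime ∧
      S ≤ ((m / roughPart q m : ℕ) : ℝ))).filter (fun m : ℕ => D ≤ (m : ℝ)),
      1 / (m : ℝ) ≤ 6 * w ^ 2 := by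
  set F2 := ((Icc 1 ⌊6 * D⌋₊).filter (fun m => (roughPart q m).Prime ∧
      S ≤ ((m / roughPart q m : ℕ) : ℝ))).filter (fun m : ℕ => D ≤ (m : ℝ)) with hF2
  have h1 : (F2.card : ℝ) ≤ (6 * D) * w ^ 2 := by
    have h2 : (F2.card : ℝ) ≤ (((Icc 1 ⌊6 * D⌋₊).filter (fun m => (roughPart q m).Prime ∧
        S ≤ ((m / roughPart q m : ℕ) : ℝ))).card : ℝ) := by
      exact_mod_cast Finset.card_le_card (filter_subset _ _)
    refine h2.trans ((large_smooth_count q ⌊6 * D⌋₊ hS0).trans ?_)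
    exact mul_le_mul (Nat.floor_le (by positivity)) hd
      (mul_nonneg (by positivity) (ZZ_nonneg _)) (by positivity)
  have h2 : ∀ m ∈ F2, 1 / (m : ℝ) ≤ 1 / D := by
    intro m hm
    exact one_div_le_one_div_of_le (by positivity) (mem_filter.1 hm).2
  calc ∑ m ∈ F2, 1 / (m : ℝ) ≤ ∑ m ∈ F2, 1 / D := Finset.sum_le_sum h2
    _ = F2.card * (1 / D) := by rw [Finset.sum_const, nsmul_eq_mul]
    _ ≤ ((6 * D) * w ^ 2) * (1 / D) := mul_le_mul_of_nonneg_right h1 (by positivity)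
    _ = _ := by field_simp

/-- the third set -/
lemma sumF3 {p N0 N1 B : ℕ} {X Z : ℝ} (hB0 : 0 < B) (hB : (B : ℝ)⁻¹ ≤ Z) (hZ : 0 ≤ Z)
    (hA : ∑ N ∈ (Icc N0 N1).filter (fun N => (roughPart p N).Prime), 1 / (N : ℝ) ≤ X) :
    ∑ m ∈ ((Icc N0 N1).filter (fun N => (roughPart p N).Prime)).image (fun N => B * N),
      1 / (m : ℝ) ≤ Z * X := by
  have h1 : ∑ m ∈ ((Icc N0 N1).filter (fun N => (roughPart p N).Prime)).image (fun N => B * N),
      1 / (m : ℝ) = ∑ N ∈ (Icc N0 N1).filter (fun N => (roughPart p N).Prime),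
      (B : ℝ)⁻¹ * (1 / (N : ℝ)) := by
    rw [Finset.sum_image]
    · refine Finset.sum_congr rfl fun N _ => ?_
      push_cast
      rw [one_div, mul_inv, one_div]
    · intro a _ a' _ haa
      exact Nat.eq_of_mul_eq_mul_left hB0 haa
  rw [h1, ← Finset.mul_sum]
  exact mul_le_mul hB hA (Finset.sum_nonneg fun _ _ => by positivity) hZ

/-- the integral decomposition -/
lemma split_int {b0 : ℝ} {n : ℕ} (hn : 0 < n) {f : ℝ → ℝ}
    (hf : ∀ u v : ℝ, IntegrableOn f (Set.Ioc u v)) :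
    ∑ i ∈ range n, ∫ t in Set.Ioc (b0 + (i : ℝ) / n) (b0 + ((i + 1 : ℕ) : ℝ) / n), f t =
      ∫ t in Set.Ioc b0 (b0 + 1), f t := by
  have hnr0 : (0 : ℝ) < n := by exact_mod_cast hn
  have hmono : ∀ k : ℕ, b0 + (k : ℝ) / n ≤ b0 + ((k + 1 : ℕ) : ℝ) / n := by
    intro k
    have : (k : ℝ) ≤ ((k + 1 : ℕ) : ℝ) := by push_cast; linarith
    have := div_le_div_of_nonneg_right this hnr0.le
    linarith
  have h1 := intervalIntegral.sum_integral_adjacent_intervals (f := f) (μ := volume)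
    (a := fun i : ℕ => b0 + (i : ℝ) / n) (n := n)
    (fun k _ => by
      rw [intervalIntegrable_iff_integrableOn_Ioc_of_le (hmono k)]
      exact hf _ _)
  have e1 : b0 + ((0 : ℕ) : ℝ) / n = b0 := by simp
  have e2 : b0 + (n : ℝ) / n = b0 + 1 := by rw [div_self hnr0.ne']
  rw [e1, e2, intervalIntegral.integral_of_le (by linarith)] at h1
  rw [← h1]
  refine Finset.sum_congr rfl fun i _ => ?_
  rw [intervalIntegral.integral_of_le (hmono i)]

theorem near_lip {b : ℕ} (hb : 2 ≤ b) {κ C : ℝ} (hκ1 : 1 ≤ κ) (hκ : κ < b) {G y y' : ℕ → ℝ → ℝ}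
    (b0 : ℝ)
    (hG : ∀ p, ∀ t ∈ Set.Icc b0 (b0 + 1), |G p t| ≤ C * κ ^ p)
    (hGL : ∀ p, ∀ s ∈ Set.Icc b0 (b0 + 1), ∀ t ∈ Set.Icc b0 (b0 + 1),
      |G p s - G p t| ≤ C * ((p : ℝ) + 1) * κ ^ p * |s - t|)
    (hy : ∀ᶠ p : ℕ in atTop, ∀ t ∈ Set.Icc b0 (b0 + 1),
      Real.exp (y p t) = Real.exp t * (b : ℝ) ^ p + G p t)
    (hym : ∀ p, Measurable (y p))
    (hfam : ∀ᶠ p : ℕ in atTop, Sh (Real.log b) b0 (b0 + 1) p (y p) (y' p)) :
    ∃ K : ℝ, 0 < K ∧ ∃ P : ℕ, ∀ p ≥ P, ∀ q : ℕ, p < q → q ≤ 2 * p →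
    ∫ t in Set.Ioc b0 (b0 + 1), ff p (y p t) * ff q (y q t) ≤
      K * ((Real.log p / p) ^ 2 + ((2 : ℝ) ^ (q - p))⁻¹ * (Real.log p / p)) := by
  classical
  have hbr : (2 : ℝ) ≤ b := by exact_mod_cast hb
  have hb0r : (0 : ℝ) < b := by linarith
  set L := Real.log b with hL
  have hLpos : 0 < L := Real.log_pos (by linarith)
  have hlk : Real.log κ < L := Real.log_lt_log (by linarith) hκ
  have hκ0 : (0 : ℝ) ≤ κ := by linarith
  have hC0 : 0 ≤ C := by
    have := hG 0 b0 ⟨le_rfl, by linarith⟩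
    rw [pow_zero, mul_one] at this
    exact (abs_nonneg _).trans this
  set c := min (L / 4) ((L - Real.log κ) / 2) with hc
  have hc0 : 0 < c := by rw [hc]; exact lt_min (by linarith) (by linarith)
  have hc4 : c ≤ L / 4 := min_le_left _ _
  have hc2 : c < L - Real.log κ := by
    have : c ≤ (L - Real.log κ) / 2 := min_le_right _ _
    linarith
  obtain ⟨K1, hK1, hA⟩ := sum_Ap2 (c := L / 2) (by positivity)
  obtain ⟨C2, hC2, hGz⟩ := near_zH hb 3 hc0
  obtain ⟨P3, hP3⟩ := eventually_atTop.1 (ZZ_le_exp (c := L / 32) (by positivity))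
  have hsm := exp_small (c := L / 16) (by positivity)
  have hpert := pert8 (g := fun p => C * κ ^ p) (C := C) hb0r hκ0 hκ
    (fun p => by rw [abs_of_nonneg (by positivity)]) (b0 - 1) 64
  have hlip := lip_small (L := L) (κ := κ) (C := C) (c := c) hκ1 hc2 (b0 - 1 / 2)
  have hlarge : ∀ᶠ p : ℕ in atTop, (|b0| + 32) * 2 / L < p :=
    tendsto_natCast_atTop_atTop.eventually_gt_atTop _
  obtain ⟨P, hP⟩ := eventually_atTop.1 (hA.and (hGz.and ((eventually_ge_atTop P3).and (hsm.and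
    (hlarge.and ((eventually_ge_atTop 3).and (hpert.and (hlip.and (hy.and hfam)))))))))
  refine ⟨2 * K1 + 44 + 176 * C2, by positivity, P, fun p hp q hpq hq2 => ?_⟩
  obtain ⟨hAp, hGp, hpP3, hsmp, hpl, hp3, hpertp, hlipp, hyp, hshp⟩ := hP p hp
  obtain ⟨_, _, hqP3, _, _, _, hpertq, _, hyq, hshq⟩ := hP q (by omega)
  obtain ⟨h, rfl⟩ : ∃ h, q = p + h := ⟨q - p, by omega⟩
  have hhp : h ≤ p := by omega
  have hp3' : (3 : ℝ) ≤ p := by exact_mod_cast hp3
  have hp0 : (0 : ℝ) < p := by linarith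
  have hb0abs := neg_abs_le b0
  have hb0abs' := le_abs_self b0
  rw [div_lt_iff₀ hLpos] at hpl
  clear hP hA hGz hsm hpert hlip hlarge
  -- the basic scale
  set Y := L * p + b0 - 1 / 2 with hY
  have hYlo : L / 2 * p ≤ Y := by rw [hY]; linarith
  have hY16 : 16 ≤ Y := by rw [hY]; linarith
  set E := Real.exp Y with hE
  have hEpos : 0 < E := Real.exp_pos Y
  have hE17 : 17 ≤ E := by have := Real.add_one_le_exp Y; linarith
  set B := b ^ h with hB
  have hB0 : 0 < B := by positivity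
  have hBr : ((B : ℕ) : ℝ) = (b : ℝ) ^ h := by rw [hB]; push_cast; rfl
  have hBr0 : (0 : ℝ) < (B : ℝ) := by exact_mod_cast hB0
  set N0 := ⌊Real.exp Y⌋₊ with hN0
  set N1 := ⌊Real.exp (Y + 2)⌋₊ with hN1
  have hN0le : (N0 : ℝ) ≤ E := Nat.floor_le hEpos.le
  have hN0gt : E < N0 + 1 := Nat.lt_floor_add_one _
  have hN1le : (N1 : ℝ) ≤ Real.exp (Y + 2) := Nat.floor_le (Real.exp_pos _).le
  obtain ⟨hee1, hee2, hhalf1, hhalf2, he3⟩ := exp_consts
  have hEe2 : Real.exp (Y + 2) = E * (Real.exp 1 * Real.exp 1) := by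
    rw [hE, ← Real.exp_add, ← Real.exp_add]; ring_nf
  have hEe7 : E * 7 ≤ Real.exp (Y + 2) := by
    rw [hEe2]; exact mul_le_mul_of_nonneg_left hee1 hEpos.le
  have hN1r : (N1 : ℝ) ≤ 8 * E := by
    have := mul_le_mul_of_nonneg_left hee2 hEpos.le
    rw [hEe2] at hN1le
    linarith
  have hN02 : 1 ≤ N0 := by
    have : (0 : ℝ) < N0 := by linarith
    exact_mod_cast this
  -- the exponential scale of the blocks
  set T := Real.exp (c * p) with hT
  have hT1 : 1 ≤ T := Real.one_le_exp (by positivity)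
  have hTE : 25 * T ≤ E := by
    have h1 : T ≤ Real.exp (Y / 2) := by
      rw [hT, Real.exp_le_exp]
      have : c * p ≤ L / 4 * p := mul_le_mul_of_nonneg_right hc4 hp0.le
      linarith
    have h2 : E = Real.exp (Y / 2) * Real.exp (Y / 2) := by rw [hE, ← Real.exp_add]; ring_nf
    have h3 : (25 : ℝ) ≤ Real.exp (Y / 2) := by
      have h4 : Real.exp 8 ≤ Real.exp (Y / 2) := Real.exp_le_exp.2 (by linarith)
      have h5 : (25 : ℝ) ≤ Real.exp 8 := by
        have h6 : Real.exp 8 = Real.exp 4 * Real.exp 4 := by rw [← Real.exp_add]; norm_num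
        have h7 := Real.add_one_le_exp (4 : ℝ)
        nlinarith
      linarith
    rw [h2]
    exact mul_le_mul h3 h1 (by linarith) (by positivity)
  have hbp : ∀ t : ℝ, Real.exp t * (b : ℝ) ^ p = Real.exp (L * p + t) := by
    intro t
    rw [Real.exp_add, hL, mul_comm (Real.log b), Real.exp_nat_mul, Real.exp_log hb0r, mul_comm]
  have hBE3 : (B : ℝ) * E ≤ (b : ℝ) ^ (3 * p) := by
    have h3 : E ≤ (b : ℝ) ^ p * (b : ℝ) ^ p := by
      have e1 : (b : ℝ) ^ p = Real.exp (L * p) := by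
        rw [hL, mul_comm (Real.log b), Real.exp_nat_mul, Real.exp_log hb0r]
      rw [e1, ← Real.exp_add, hE, hY]
      exact Real.exp_le_exp.2 (by linarith)
    have h4 : ((B : ℕ) : ℝ) ≤ (b : ℝ) ^ p := by
      rw [hBr]
      exact pow_le_pow_right₀ (by linarith) hhp
    calc B * E ≤ (b : ℝ) ^ p * ((b : ℝ) ^ p * (b : ℝ) ^ p) := mul_le_mul h4 h3 hEpos.le (by positivity)
      _ = (b : ℝ) ^ (3 * p) := by rw [← pow_add, ← pow_add]; ring_nf
  -- size of the shifts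
  have hgp : ∀ t ∈ Set.Icc b0 (b0 + 1), |G p t| ≤ E / 64 := by
    intro t ht
    refine (hG p t ht).trans ?_
    rw [abs_of_nonneg (by positivity)] at hpertp
    push_cast at hpertp
    have h1 : Real.exp (L * p + (b0 - 1)) ≤ E := by
      rw [hE, hY]; exact Real.exp_le_exp.2 (by linarith)
    linarith
  have hgq : ∀ t ∈ Set.Icc b0 (b0 + 1), |G (p + h) t| ≤ B * E / 64 := by
    intro t ht
    refine (hG (p + h) t ht).trans ?_
    rw [abs_of_nonneg (by positivity)] at hpertq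
    push_cast at hpertq
    have h1 : Real.exp (L * (p + h) + (b0 - 1)) ≤ B * E := by
      rw [hBr, hE, hY]
      have h2 : (b : ℝ) ^ h = Real.exp (L * h) := by
        rw [hL, mul_comm (Real.log b), Real.exp_nat_mul, Real.exp_log hb0r]
      rw [h2, ← Real.exp_add]
      exact Real.exp_le_exp.2 (by linarith)
    linarith
  set k' : ℝ → ℝ := fun t => G (p + h) t - (B : ℝ) * G p t with hk'
  have hk'b : ∀ t ∈ Set.Icc b0 (b0 + 1), |k' t| ≤ B * E / 32 := by
    intro t ht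
    calc |k' t| ≤ |G (p + h) t| + |(B : ℝ) * G p t| := abs_sub _ _
      _ = |G (p + h) t| + B * |G p t| := by rw [abs_mul, abs_of_pos hBr0]
      _ ≤ B * E / 64 + B * (E / 64) := add_le_add (hgq t ht)
          (mul_le_mul_of_nonneg_left (hgp t ht) hBr0.le)
      _ = _ := by ring
  have hk'L : ∀ s ∈ Set.Icc b0 (b0 + 1), ∀ t ∈ Set.Icc b0 (b0 + 1), |s - t| ≤ T / E →
      |k' s - k' t| ≤ B := by
    intro s hs t ht hst
    have h1 := shift_lip (b := b) (p := p) (h := h) hκ0 hκ.le hC0 hhp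
      (hGL (p + h) s hs t ht) (hGL p s hs t ht)
    rw [← hB] at h1
    have h4 : C * (3 * p + 2) * κ ^ p * T ≤ E := by
      have : L * p + (b0 - 1 / 2) = Y := by rw [hY]; ring
      rw [hE, ← this]
      exact hlipp
    calc |k' s - k' t| ≤ B * (C * (3 * p + 2) * κ ^ p) * |s - t| := h1
      _ ≤ B * (C * (3 * p + 2) * κ ^ p) * (T / E) := mul_le_mul_of_nonneg_left hst (by positivity)
      _ = B * ((C * (3 * p + 2) * κ ^ p * T) / E) := by ring
      _ ≤ B * 1 := by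
          refine mul_le_mul_of_nonneg_left ?_ hBr0.le
          rw [div_le_one hEpos]
          exact h4
      _ = B := mul_one _
  -- the number of blocks
  obtain ⟨n, hn0, hinvn, hHlo, hHhi, hnH⟩ := scale hT1 hTE
  have hnr0 : (0 : ℝ) < n := by exact_mod_cast hn0
  set H := ⌈16 * E / n⌉₊ + 2 with hH
  -- the division points
  set s : ℕ → ℝ := fun i => b0 + (i : ℝ) / n with hs
  have hsn : s n = b0 + 1 := by
    simp only [hs]
    rw [div_self hnr0.ne']
  have hsmono : ∀ i j : ℕ, i ≤ j → s i ≤ s j := by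
    intro i j hij
    simp only [hs]
    have : (i : ℝ) ≤ j := by exact_mod_cast hij
    have := div_le_div_of_nonneg_right this hnr0.le
    linarith
  have hsI : ∀ i ≤ n, s i ∈ Set.Icc b0 (b0 + 1) := by
    intro i hi
    constructor
    · have := hsmono 0 i (by omega)
      have e : s 0 = b0 := by simp [hs]
      rw [e] at this
      exact this
    · rw [← hsn]; exact hsmono i n hi
  have hsstep : ∀ i : ℕ, s (i + 1) - s i = 1 / n := by
    intro i
    simp only [hs]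
    push_cast
    ring
  -- values
  have hX : ∀ t ∈ Set.Icc b0 (b0 + 1), 3 / 2 * E ≤ Real.exp (y p t) ∧ Real.exp (y p t) ≤ 6 * E ∧
      B * (3 / 2 * E) ≤ Real.exp (y (p + h) t) ∧ Real.exp (y (p + h) t) ≤ B * (6 * E) ∧
      Real.exp (y (p + h) t) = B * Real.exp (y p t) + k' t := by
    intro t ht
    have hXlo : Real.exp (1 / 2) * E ≤ Real.exp t * (b : ℝ) ^ p := by
      rw [hbp, hE, hY, ← Real.exp_add]
      exact Real.exp_le_exp.2 (by linarith [ht.1])
    have hXhi : Real.exp t * (b : ℝ) ^ p ≤ (Real.exp 1 * Real.exp (1 / 2)) * E := by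
      rw [hbp, hE, hY, ← Real.exp_add, ← Real.exp_add]
      exact Real.exp_le_exp.2 (by linarith [ht.2])
    have h4 : 8 / 5 * E ≤ Real.exp (1 / 2) * E := mul_le_mul_of_nonneg_right hhalf1 hEpos.le
    have h5 : (Real.exp 1 * Real.exp (1 / 2)) * E ≤ (3 * (17 / 10)) * E := by gcongr
    have h6 := abs_le.1 (hgp t ht)
    have h7 := abs_le.1 (hgq t ht)
    have h8 : Real.exp t * (b : ℝ) ^ (p + h) = B * (Real.exp t * (b : ℝ) ^ p) := by
      rw [hBr, pow_add]; ring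
    have h9 := mul_le_mul_of_nonneg_left (h4.trans hXlo) hBr0.le
    have h10 := mul_le_mul_of_nonneg_left (hXhi.trans h5) hBr0.le
    have h11 : 0 < B * E := by positivity
    rw [hyp t ht, hyq t ht, h8]
    have h12 : Real.exp t * (b : ℝ) ^ p ≤ 51 / 10 * E := by linarith
    have h13 : 8 / 5 * E ≤ Real.exp t * (b : ℝ) ^ p := h4.trans hXlo
    set u := Real.exp t * (b : ℝ) ^ p with hu
    clear_value u
    have h14 : (B : ℝ) * (8 / 5 * E) = 8 / 5 * (B * E) := by ring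
    have h15 : (B : ℝ) * (3 * (17 / 10) * E) = 51 / 10 * (B * E) := by ring
    have h16 : (B : ℝ) * (3 / 2 * E) = 3 / 2 * (B * E) := by ring
    have h17 : (B : ℝ) * (6 * E) = 6 * (B * E) := by ring
    rw [h14] at h9
    rw [h15] at h10
    rw [h16, h17]
    refine ⟨by linarith, by linarith, by linarith, by linarith, ?_⟩
    simp only [hk']
    ring
  -- the constants of the smooth parts
  set S := Real.exp (Y / 2) with hS
  have hS0 : 0 < S := Real.exp_pos _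
  set w := Real.log p / p with hw
  have hw0 : 0 ≤ w := div_nonneg (Real.log_natCast_nonneg p) hp0.le
  have hw20 : 0 ≤ w ^ 2 := by positivity
  have hSm : S ^ (-(1 / 2) : ℝ) = Real.exp (-(Y / 4)) := by
    rw [hS, ← Real.exp_mul]; ring_nf
  have hq2p : (((p + h : ℕ)) : ℝ) ≤ 2 * p := by
    have : p + h ≤ 2 * p := by omega
    exact_mod_cast this
  have hdecay : ∀ m : ℕ, P3 ≤ m → (m : ℝ) ≤ 2 * p → S ^ (-(1 / 2) : ℝ) * ZZ m ≤ w ^ 2 := by
    intro m hpm hm
    rw [hSm]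
    calc Real.exp (-(Y / 4)) * ZZ m ≤ Real.exp (-(Y / 4)) * Real.exp (L / 32 * m) :=
          mul_le_mul_of_nonneg_left (hP3 m hpm) (Real.exp_pos _).le
      _ = Real.exp (-(Y / 4) + L / 32 * m) := (Real.exp_add _ _).symm
      _ ≤ Real.exp (-(L / 16 * p)) := by
          rw [Real.exp_le_exp]
          have h9 := mul_le_mul_of_nonneg_left hm hLpos.le
          linarith
      _ ≤ _ := hsmp
  -- the sets of values
  set F1 := (Icc N0 N1).filter (fun m => (roughPart p m).Prime ∧ S ≤ ((m / roughPart p m : ℕ) : ℝ))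
    with hF1
  have hX2e : ⌊B * (6 * E)⌋₊ = ⌊6 * (B * E)⌋₊ := by congr 1; ring
  set X2 := ⌊6 * (B * E)⌋₊ with hX2
  set F2 := ((Icc 1 X2).filter (fun m => (roughPart (p + h) m).Prime ∧
    S ≤ ((m / roughPart (p + h) m : ℕ) : ℝ))).filter (fun m : ℕ => B * E ≤ (m : ℝ)) with hF2
  set F3 := ((Icc N0 N1).filter (fun N => (roughPart p N).Prime)).image (fun N => B * N) with hF3
  set F5 : ℕ → Finset ℕ := fun i => F4 p h B S (B * E) (NN (y p (s i))) H (⌊k' (s i)⌋ - B) with hF5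
  have hBE0 : 0 < B * E := by positivity
  have hF1' : ∀ m ∈ F1, 1 ≤ m := fun m hm => by
    have := (mem_Icc.1 (mem_filter.1 hm).1).1
    omega
  have hF2' : ∀ m ∈ F2, 1 ≤ m := fun m hm => (mem_Icc.1 (mem_filter.1 (mem_filter.1 hm).1).1).1
  have hF3' : ∀ m ∈ F3, 1 ≤ m := fun m hm => by
    obtain ⟨N, hN, rfl⟩ := mem_image.1 hm
    have := (mem_Icc.1 (mem_filter.1 hN).1).1
    exact Nat.mul_pos hB0 (by omega)
  have hF4' : ∀ i, ∀ m ∈ F5 i, 1 ≤ m := fun i m hm => by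
    have h1 : B * E ≤ (m : ℝ) := by
      simp only [hF5] at hm
      unfold F4 at hm
      obtain ⟨x, hx, rfl⟩ := mem_image.1 hm
      unfold G4 at hx
      exact (mem_filter.1 hx).2.1.2
    have h2 : (0 : ℝ) < m := lt_of_lt_of_le hBE0 h1
    exact_mod_cast h2
  -- the pointwise bound
  have hpt : ∀ i < n, ∀ t ∈ Set.Ioc (s i) (s (i + 1)), ff p (y p t) * ff (p + h) (y (p + h) t) ≤
      (((if NN (y p t) ∈ F1 then (1 : ℝ) else 0) + if NN (y (p + h) t) ∈ F2 then (1 : ℝ) else 0) +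
        if NN (y (p + h) t) ∈ F3 then (1 : ℝ) else 0) +
        if NN (y (p + h) t) ∈ F5 i then (1 : ℝ) else 0 := by
    intro i hi t ht
    have htI : t ∈ Set.Icc b0 (b0 + 1) :=
      ⟨(hsI i hi.le).1.trans ht.1.le, ht.2.trans (hsI (i + 1) (by omega)).2⟩
    have hsi := hsI i hi.le
    have hst1 : t - s i ≤ 1 / n := by
      have h1 := hsstep i
      have h2 := ht.2
      clear_value s
      linarith
    have hst0 : 0 ≤ t - s i := sub_nonneg.2 ht.1.le
    obtain ⟨x1, x2, x3, x4, x5⟩ := hX t htI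
    have hn1 := NN_bounds (y p t)
    have hn2 := NN_bounds (y (p + h) t)
    obtain ⟨f1, f2, f3, f4, f5, f6, f7⟩ := pos_facts (k0 := k' (s i)) hB0 hE17 hn1.1 hn1.2 hn2.1 hn2.2
      x5 x1 x2 x3 x4 (hk'L t htI (s i) hsi (by rw [abs_of_nonneg hst0]; exact hst1.trans hinvn))
    rw [hX2e] at f4
    obtain ⟨g1, g2⟩ := block_pos hshp hp3 hsi.1 ht.1.le htI.2 hn0 hst1 hEpos x2
    refine pt_cases (N0 := N0) (N1 := N1) (X2 := X2) (B := B) (n0 := NN (y p (s i))) (H := H) (S := S) (D := B * E)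
      (k := ⌊k' (s i)⌋ - B) (N := NN (y p t)) (M := NN (y (p + h) t)) ?_ ?_ ?_ f5 f4 f3 f6 f7 g1 g2
    · unfold ff
      split_ifs <;> norm_num
    · have : (N0 : ℝ) ≤ NN (y p t) := hN0le.trans f1
      exact_mod_cast this
    · rw [hN1, Nat.le_floor_iff (Real.exp_pos _).le]
      refine f2.trans (le_trans ?_ hEe7)
      clear_value E
      linarith
  -- measurability and integrability
  have hmN : ∀ (m : ℕ) (F : Finset ℕ), Measurable (fun t => if NN (y m t) ∈ F then (1 : ℝ) else 0) :=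
    fun m F => ((measurable_from_nat (f := fun n : ℕ => if n ∈ F then (1 : ℝ) else 0)).comp
      measurable_NN).comp (hym m)
  have hiN : ∀ (m : ℕ) (F : Finset ℕ) (u v : ℝ),
      IntegrableOn (fun t => if NN (y m t) ∈ F then (1 : ℝ) else 0) (Set.Ioc u v) := by
    intro m F u v
    refine Measure.integrableOn_of_bounded (M := 1) (by simp) (hmN m F).aestronglyMeasurable ?_
    refine Eventually.of_forall fun t => ?_
    split_ifs <;> simp
  have hif : ∀ u v : ℝ, IntegrableOn (fun t : ℝ => ff p (y p t) * ff (p + h) (y (p + h) t))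
      (Set.Ioc u v) := by
    intro u v
    refine Measure.integrableOn_of_bounded (M := 1) (by simp)
      (((measurable_ff p).comp (hym p)).mul
        ((measurable_ff (p + h)).comp (hym (p + h)))).aestronglyMeasurable ?_
    refine Eventually.of_forall fun t => ?_
    have h1 := ff_nonneg p (y p t)
    have h2 := ff_nonneg (p + h) (y (p + h) t)
    have h3 := ff_le_one p (y p t)
    have h4 := ff_le_one (p + h) (y (p + h) t)
    rw [Real.norm_eq_abs, abs_of_nonneg (mul_nonneg h1 h2)]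
    exact mul_le_one₀ h3 h2 h4
  set g0 : ℝ → ℝ := fun t => ((if NN (y p t) ∈ F1 then (1 : ℝ) else 0) +
    if NN (y (p + h) t) ∈ F2 then (1 : ℝ) else 0) + if NN (y (p + h) t) ∈ F3 then (1 : ℝ) else 0
    with hg0
  have hig0 : ∀ u v : ℝ, IntegrableOn g0 (Set.Ioc u v) := fun u v =>
    ((hiN p F1 u v).add (hiN (p + h) F2 u v)).add (hiN (p + h) F3 u v)
  -- the decomposition
  have hmain : ∫ t in Set.Ioc b0 (b0 + 1), ff p (y p t) * ff (p + h) (y (p + h) t) ≤
      (∫ t in Set.Ioc b0 (b0 + 1), g0 t) + ∑ i ∈ range n, 2 * ∑ m ∈ F5 i, 1 / (m : ℝ) := by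
    rw [← split_int hn0 hif, ← split_int hn0 hig0, ← Finset.sum_add_distrib]
    refine Finset.sum_le_sum fun i hi => ?_
    rw [mem_range] at hi
    have h1 := ind_sh hshq (by omega) (hsI i hi.le).1 (hsmono i (i + 1) (by omega))
      (hsI (i + 1) (by omega)).2 (F5 i) (hF4' i)
    refine le_trans ?_ (add_le_add_right h1 _)
    rw [← integral_add (hig0 _ _) (hiN _ _ _ _)]
    exact setIntegral_mono_on (hif _ _) ((hig0 _ _).add (hiN _ _ _ _)) measurableSet_Ioc
      (hpt i hi)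
  refine hmain.trans ?_
  have e2h : p + h - p = h := by omega
  rw [e2h]
  have hinvB : (B : ℝ)⁻¹ ≤ ((2 : ℝ) ^ h)⁻¹ := by
    rw [hBr]
    exact inv_anti₀ (by positivity) (pow_le_pow_left₀ (by norm_num) hbr _)
  -- the three sets
  have hbw : b0 ≤ b0 + 1 := (le_add_iff_nonneg_right b0).2 zero_le_one
  have hI1 : ∫ t in Set.Ioc b0 (b0 + 1), (if NN (y p t) ∈ F1 then (1 : ℝ) else 0) ≤ 2 * (16 * w ^ 2) :=
    (ind_sh hshp hp3 le_rfl hbw le_rfl F1 hF1').trans (mul_le_mul_of_nonneg_left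
      (sumF1 hE17 hN0gt hN1r hS0 (hdecay p hpP3 (by linarith))) (by norm_num))
  have hI2 : ∫ t in Set.Ioc b0 (b0 + 1), (if NN (y (p + h) t) ∈ F2 then (1 : ℝ) else 0) ≤
      2 * (6 * w ^ 2) :=
    (ind_sh hshq (by omega) le_rfl hbw le_rfl F2 hF2').trans (mul_le_mul_of_nonneg_left
      (sumF2 hBE0 hS0 (hdecay (p + h) hqP3 hq2p)) (by norm_num))
  have hI3 : ∫ t in Set.Ioc b0 (b0 + 1), (if NN (y (p + h) t) ∈ F3 then (1 : ℝ) else 0) ≤
      2 * (((2 : ℝ) ^ h)⁻¹ * (K1 * w)) :=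
    (ind_sh hshq (by omega) le_rfl hbw le_rfl F3 hF3').trans (mul_le_mul_of_nonneg_left
      (sumF3 hB0 hinvB (by positivity) (hAp Y hYlo)) (by norm_num))
  -- the blocks
  have hI4 : ∀ i ∈ range n, 2 * ∑ m ∈ F5 i, 1 / (m : ℝ) ≤ 8 * (C2 * w ^ 2 * H) / E := by
    intro i hi
    rw [mem_range] at hi
    have hsi := hsI i hi.le
    obtain ⟨x1, x2, _, _, _⟩ := hX (s i) hsi
    have hn0b := NN_bounds (y p (s i))
    have hn0E : E ≤ (NN (y p (s i)) : ℝ) := by
      clear_value E s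
      linarith [hn0b.2]
    simp only [hF5]
    refine F4_sum (b := b) hB hB0 hE17 hC2.le (hk'b (s i) hsi) hn0E hBE3 ?_
    intro r hr0 hr1 hr2 S' hS' hSc
    exact hGp h r hhp hr0 hr1 Y hYlo (NN (y p (s i))) H (by linarith) hHlo hHhi hr2 S' hS' hSc
  have hI4s : ∑ i ∈ range n, 2 * ∑ m ∈ F5 i, 1 / (m : ℝ) ≤ 176 * C2 * w ^ 2 := by
    calc ∑ i ∈ range n, 2 * ∑ m ∈ F5 i, 1 / (m : ℝ) ≤ ∑ i ∈ range n, 8 * (C2 * w ^ 2 * H) / E :=
          Finset.sum_le_sum hI4
      _ = n * (8 * (C2 * w ^ 2 * H) / E) := by rw [Finset.sum_const, card_range, nsmul_eq_mul]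
      _ = 8 * C2 * w ^ 2 * (n * H) / E := by ring
      _ ≤ 8 * C2 * w ^ 2 * (22 * E) / E := by gcongr
      _ = _ := by field_simp; ring
  have hI0 : ∫ t in Set.Ioc b0 (b0 + 1), g0 t ≤ 2 * (16 * w ^ 2) + 2 * (6 * w ^ 2) +
      2 * (((2 : ℝ) ^ h)⁻¹ * (K1 * w)) := by
    have h1 : ∫ t in Set.Ioc b0 (b0 + 1), g0 t =
        (∫ t in Set.Ioc b0 (b0 + 1), ((if NN (y p t) ∈ F1 then (1 : ℝ) else 0) +
          if NN (y (p + h) t) ∈ F2 then (1 : ℝ) else 0)) +
        ∫ t in Set.Ioc b0 (b0 + 1), (if NN (y (p + h) t) ∈ F3 then (1 : ℝ) else 0) :=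
      integral_add ((hiN p F1 _ _).add (hiN (p + h) F2 _ _)) (hiN (p + h) F3 _ _)
    have h2 : ∫ t in Set.Ioc b0 (b0 + 1), ((if NN (y p t) ∈ F1 then (1 : ℝ) else 0) +
          if NN (y (p + h) t) ∈ F2 then (1 : ℝ) else 0) =
        (∫ t in Set.Ioc b0 (b0 + 1), (if NN (y p t) ∈ F1 then (1 : ℝ) else 0)) +
        ∫ t in Set.Ioc b0 (b0 + 1), (if NN (y (p + h) t) ∈ F2 then (1 : ℝ) else 0) :=
      integral_add (hiN p F1 _ _) (hiN (p + h) F2 _ _)
    rw [h1, h2]
    exact add_le_add (add_le_add hI1 hI2) hI3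
  refine (add_le_add hI0 hI4s).trans ?_
  set v := ((2 : ℝ) ^ h)⁻¹ * w with hv
  have hv0 : 0 ≤ v := by positivity
  have e1 : ((2 : ℝ) ^ h)⁻¹ * (K1 * w) = K1 * v := by rw [hv]; ring
  rw [e1]
  have h21 := mul_nonneg hK1.le hw20
  have h22 := mul_nonneg hC2.le hv0
  have e2 : (2 * K1 + 44 + 176 * C2) * (w ^ 2 + v) =
      2 * (16 * w ^ 2) + 2 * (6 * w ^ 2) + 2 * (K1 * v) + 176 * C2 * w ^ 2 +
      (2 * (K1 * w ^ 2) + 44 * v + 176 * (C2 * v)) := by ring
  rw [e2]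
  have h23 : 0 ≤ 2 * (K1 * w ^ 2) + 44 * v + 176 * (C2 * v) := by positivity
  exact le_add_of_nonneg_right h23

end Pool.Agent.K3h13.RB
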