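import Mathlib
import Pool.Agent.TH888.R.Sh
import Pool.Agent.TH888.R.Asy
import Pool.Agent.H447R2.ML.P9

set_option autoImplicit false

/-!
# Shift families without a formula for the transition functions
-/

namespace Pool.Agent.K3h13.RB

open Finset Filter Topology MeasureTheory
open Pool.Agent.TH888.R
open Pool.Agent.H447R2.ML (Sh ff_eq_floor inv_le_third)
open Pool.Agent.H305R2 (roughPart ff NN LL)

/-- the transition functions of two phases of shift type -/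
lemma trans_sh {a b0 : ℝ} {p q : ℕ} {y y' z z' : ℝ → ℝ} (hy : Sh a (b0 - 2) (b0 + 3) p y y')
    (hz : Sh a (b0 - 2) (b0 + 3) q z z') (hp : 3 ≤ p) (hq : 3 ≤ q) : ∃ w : ℝ → ℝ, Measurable w ∧
      MonotoneOn w (Set.Icc (a * q + b0 - 1) (a * q + b0 + 2)) ∧
      (∀ s ∈ Set.Icc (a * q + b0 - 1) (a * q + b0 + 2), ∀ t ∈ Set.Icc (a * q + b0 - 1) (a * q + b0 + 2),
        |w s - w t| ≤ 2 * |s - t|) ∧ w (a * q + b0 + 2) ≤ a * p + |b0| + 3 ∧
      ∀ t ∈ Set.Ioc b0 (b0 + 1), w (z t) = y t := by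
  have hp3 := inv_le_third hp
  have hq3 := inv_le_third hq
  have hsmy := hy.strict hp
  have hsmz := hz.strict hq
  set lo := a * q + b0 - 1 with hlo
  set hi := a * q + b0 + 2 with hhi
  have hlh : lo ≤ hi := by rw [hlo, hhi]; linarith
  have hz0 := abs_le.1 (hz.near (b0 - 2) ⟨le_rfl, by linarith⟩)
  have hz1 := abs_le.1 (hz.near (b0 + 3) ⟨by linarith, le_rfl⟩)
  have hsurj : ∀ u ∈ Set.Icc lo hi, ∃ x ∈ Set.Icc (b0 - 2) (b0 + 3), z x = u := by
    intro u hu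
    obtain ⟨x, hx, he⟩ := intermediate_value_Icc (by linarith : b0 - 2 ≤ b0 + 3) hz.cont
      (show u ∈ Set.Icc (z (b0 - 2)) (z (b0 + 3)) from ⟨by linarith [hu.1], by linarith [hu.2]⟩)
    exact ⟨x, hx, he⟩
  choose! v hv hzv using hsurj
  have hclamp : ∀ u : ℝ, max lo (min hi u) ∈ Set.Icc lo hi := fun u =>
    ⟨le_max_left _ _, max_le hlh (min_le_left _ _)⟩
  have hclamp' : ∀ u ∈ Set.Icc lo hi, max lo (min hi u) = u := fun u hu => by
    rw [min_eq_right hu.2, max_eq_right hu.1]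
  have hvmono : ∀ u1 ∈ Set.Icc lo hi, ∀ u2 ∈ Set.Icc lo hi, u1 ≤ u2 → v u1 ≤ v u2 := by
    intro u1 h1 u2 h2 h12
    rw [← hsmz.le_iff_le (hv u1 h1) (hv u2 h2), hzv u1 h1, hzv u2 h2]
    exact h12
  set w : ℝ → ℝ := fun u => y (v (max lo (min hi u))) with hw
  have hwmono : Monotone w := by
    intro s t hst
    simp only [hw]
    have h1 := hclamp s
    have h2 := hclamp t
    exact hsmy.monotoneOn (hv _ h1) (hv _ h2)
      (hvmono _ h1 _ h2 (max_le_max le_rfl (min_le_min le_rfl hst)))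
  have hlip : ∀ s ∈ Set.Icc lo hi, ∀ t ∈ Set.Icc lo hi, s ≤ t → w t - w s ≤ 2 * (t - s) := by
    intro s hs t ht hst
    simp only [hw]
    rw [hclamp' s hs, hclamp' t ht]
    have h1 := hvmono s hs t ht hst
    have h2 := (hy.mvt (hv s hs).1 h1 (hv t ht).2).2
    have h3 := (hz.mvt (hv s hs).1 h1 (hv t ht).2).1
    rw [hzv s hs, hzv t ht] at h3
    have h4 : 0 ≤ v t - v s := by linarith
    have h5 : (1 + 1 / (p : ℝ)) * (v t - v s) ≤ 4 / 3 * (v t - v s) :=
      mul_le_mul_of_nonneg_right (by linarith) h4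
    have h6 : 2 / 3 * (v t - v s) ≤ (1 - 1 / (q : ℝ)) * (v t - v s) :=
      mul_le_mul_of_nonneg_right (by linarith) h4
    linarith
  refine ⟨w, hwmono.measurable, hwmono.monotoneOn _, ?_, ?_, ?_⟩
  · intro s hs t ht
    rcases le_total s t with h | h
    · have h1 := hwmono h
      have h2 := hlip s hs t ht h
      rw [abs_of_nonpos (by linarith), abs_of_nonpos (by linarith)]
      linarith
    · have h1 := hwmono h
      have h2 := hlip t ht s hs h
      rw [abs_of_nonneg (by linarith), abs_of_nonneg (by linarith)]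
      exact h2
  · have hm : hi ∈ Set.Icc lo hi := ⟨hlh, le_rfl⟩
    simp only [hw]
    rw [hclamp' hi hm]
    have h1 := abs_le.1 (hz.near (v hi) (hv hi hm))
    have h2 := abs_le.1 (hy.near (v hi) (hv hi hm))
    rw [hzv hi hm] at h1
    have h3 := le_abs_self b0
    linarith [h1.1, h2.2]
  · intro t ht
    have htI : t ∈ Set.Icc (b0 - 2) (b0 + 3) := ⟨by linarith [ht.1], by linarith [ht.2]⟩
    have h1 := abs_le.1 (hz.near t htI)
    have hm : z t ∈ Set.Icc lo hi := ⟨by linarith [h1.1, ht.1], by linarith [h1.2, ht.2]⟩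
    simp only [hw]
    rw [hclamp' _ hm]
    congr 1
    exact hsmz.injOn (hv _ hm) htI (hzv _ hm)

/-- **A shift family with near pairs is a system on every window.** -/
theorem sys_sh2 {a : ℝ} (ha : 0 < a) {y y' : ℕ → ℝ → ℝ} (hym : ∀ p, Measurable (y p))
    (hfam : ∀ a0 a1 : ℝ, a0 < a1 → ∀ᶠ p : ℕ in atTop, Sh a a0 a1 p (y p) (y' p))
    (hnear : ∀ b0 : ℝ, ∃ K : ℝ, 0 < K ∧ ∃ P : ℕ, ∀ p ≥ P, ∀ q : ℕ, p < q → q ≤ 2 * p →
      ∫ t in Set.Ioc b0 (b0 + 1), ff p (y p t) * ff q (y q t) ≤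
        K * ((Real.log p / p) ^ 2 + ((2 : ℝ) ^ (q - p))⁻¹ * (Real.log p / p))) (b0 : ℝ) :
    Sys (volume.restrict (Set.Ioc b0 (b0 + 1))) (fun p t => ff p (y p t)) (fun p t => LL p (y p t))
      (fun _ => Real.exp Real.eulerMascheroniConstant / a) := by
  refine sys_sh ha hym hfam (fun b0 => ?_) hnear b0
  obtain ⟨P, hP⟩ := eventually_atTop.1 (hfam (b0 - 2) (b0 + 3) (by linarith))
  refine ⟨P + 3, fun p hp q hq _ => ?_⟩
  exact trans_sh (hP p (by omega)) (hP q (by omega)) (by omega) (by omega)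

/-- for almost every parameter the values are not integers -/
lemma ne_nat_sh {a : ℝ} {y y' : ℕ → ℝ → ℝ}
    (hfam : ∀ a0 a1 : ℝ, a0 < a1 → ∀ᶠ p : ℕ in atTop, Sh a a0 a1 p (y p) (y' p)) :
    ∀ᵐ t : ℝ, ∃ P : ℕ, ∀ p ≥ P, ∀ m : ℕ, Real.exp (y p t) ≠ m := by
  refine ae_windows fun b0 => ?_
  rw [ae_restrict_iff' measurableSet_Ioc]
  obtain ⟨P, hP⟩ := eventually_atTop.1 (hfam b0 (b0 + 1) (by linarith))
  have hnull : volume (⋃ p : ℕ, ⋃ m : ℕ, {t : ℝ | t ∈ Set.Ioc b0 (b0 + 1) ∧ P + 3 ≤ p ∧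
      Real.exp (y p t) = m}) = 0 := by
    refine Set.Countable.measure_zero ?_ volume
    refine Set.countable_iUnion fun p => Set.countable_iUnion fun m => ?_
    refine Set.Subsingleton.countable ?_
    rintro s ⟨hs, hp, hs2⟩ t ⟨ht, _, ht2⟩
    have h5 : y p s = y p t := Real.exp_injective (by rw [hs2, ht2])
    exact ((hP p (by omega)).strict (by omega)).injOn (Set.Ioc_subset_Icc_self hs)
      (Set.Ioc_subset_Icc_self ht) h5
  rw [← compl_mem_ae_iff] at hnull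
  filter_upwards [hnull] with t ht htI
  refine ⟨P + 3, fun p hp m hm => ht ?_⟩
  simp only [Set.mem_iUnion]
  exact ⟨p, m, htI, hp, hm⟩

open Classical in
/-- **The statements for the integer parts of a shift family with near pairs.** -/
theorem pt_sh {a : ℝ} (ha : 0 < a) {y y' : ℕ → ℝ → ℝ} (hym : ∀ p, Measurable (y p))
    (hfam : ∀ a0 a1 : ℝ, a0 < a1 → ∀ᶠ p : ℕ in atTop, Sh a a0 a1 p (y p) (y' p))
    (hnear : ∀ b0 : ℝ, ∃ K : ℝ, 0 < K ∧ ∃ P : ℕ, ∀ p ≥ P, ∀ q : ℕ, p < q → q ≤ 2 * p →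
      ∫ t in Set.Ioc b0 (b0 + 1), ff p (y p t) * ff q (y q t) ≤
        K * ((Real.log p / p) ^ 2 + ((2 : ℝ) ^ (q - p))⁻¹ * (Real.log p / p)))
    {val : ℕ → ℝ → ℝ} {D : Set ℝ}
    (hval : ∀ t ∈ D, ∀ᶠ p : ℕ in atTop, 0 < val p t ∧ Real.log (val p t) = y p t) (S : Set ℕ) :
    ∀ᵐ t : ℝ, t ∈ D → Pt (fun p => ⌊val p t⌋₊) (Real.exp Real.eulerMascheroniConstant / a) S := by
  have hne := ne_nat_sh hfam
  refine ae_windows fun b0 => ?_
  have hfin : IsFiniteMeasure (volume.restrict (Set.Ioc b0 (b0 + 1))) := ⟨by simp⟩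
  have hsys := sys_sh2 ha hym hfam hnear b0
  have key := hsys.pt (s := fun t p => if t ∈ D then ⌊val p t⌋₊ else NN (y p t)) (by
    filter_upwards [ae_restrict_of_ae hne] with t h3
    by_cases htD : t ∈ D
    · obtain ⟨P1, hP1⟩ := h3
      obtain ⟨P2, hP2⟩ := eventually_atTop.1 (hval t htD)
      refine ⟨P1 + P2, fun p hp hpp => ?_⟩
      obtain ⟨h4, h5⟩ := hP2 p (by omega)
      simp only [if_pos htD]
      rw [← h5]
      refine ff_eq_floor h4 fun m hm => hP1 p (by omega) m ?_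
      rw [← h5, Real.exp_log h4]
      exact hm
    · refine ⟨0, fun p _ _ => ?_⟩
      simp only [if_neg htD]
      rfl) S
  filter_upwards [key] with t ht htD
  simp only [if_pos htD] at ht
  exact ht

end Pool.Agent.K3h13.RB
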