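import Mathlib
import Pool.Agent.K3h13.RB.RD
import Pool.Agent.K3h13.RB.RE

set_option autoImplicit false

/-!
# The family `e ^ t (a ^ p - β(t) ^ p)` with a varying second entry
-/

namespace Pool.Agent.K3h13.RB

open Filter Topology MeasureTheory
open Pool.Agent.TH888.R
open Pool.Agent.H447R2.ML (Sh)

/-- the density of the extension -/
noncomputable def rho (l u : ℝ) : ℝ := Real.exp (-max u (-u / l))

/-- a function equal to `e ^ (-s)` for `s ≥ 0` and at most `1 + l` everywhere -/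
noncomputable def phi (l s : ℝ) : ℝ := 1 - ∫ u in (0 : ℝ)..s, rho l u

lemma rho_cont (l : ℝ) : Continuous (rho l) := by
  unfold rho
  exact Real.continuous_exp.comp ((continuous_id.max (continuous_id.neg.div_const l)).neg)

lemma rho_pos (l u : ℝ) : 0 < rho l u := Real.exp_pos _

lemma rho_le {l : ℝ} (hl : 0 < l) (u : ℝ) : rho l u ≤ 1 := by
  unfold rho
  rw [Real.exp_le_one_iff, neg_nonpos]
  rcases le_total 0 u with h | h
  · exact h.trans (le_max_left _ _)
  · exact (div_nonneg (by linarith) hl.le).trans (le_max_right _ _)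

lemma phi_der (l s : ℝ) : HasDerivAt (phi l) (-rho l s) s := by
  unfold phi
  exact ((rho_cont l).integral_hasStrictDerivAt 0 s).hasDerivAt.const_sub 1

lemma phi_eq {l s : ℝ} (hl : 0 < l) (hs : 0 ≤ s) : phi l s = Real.exp (-s) := by
  unfold phi
  have h1 : ∫ u in (0 : ℝ)..s, rho l u = ∫ u in (0 : ℝ)..s, Real.exp (-u) := by
    refine intervalIntegral.integral_congr fun u hu => ?_
    rw [Set.uIcc_of_le hs] at hu
    have h2 : -u / l ≤ 0 := div_nonpos_of_nonpos_of_nonneg (by linarith [hu.1]) hl.le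
    unfold rho
    rw [max_eq_left (h2.trans hu.1)]
  rw [h1]
  have h2 : ∫ u in (0 : ℝ)..s, Real.exp (-u) = 1 - Real.exp (-s) := by
    have h3 := intervalIntegral.integral_eq_sub_of_hasDerivAt (a := 0) (b := s)
      (f := fun u : ℝ => -Real.exp (-u)) (f' := fun u => Real.exp (-u))
      (fun x _ => by
        have h4 := ((hasDerivAt_neg x).exp).neg
        have e : -(Real.exp (-x) * -1) = Real.exp (-x) := by ring
        rw [e] at h4
        exact h4)
      ((Real.continuous_exp.comp continuous_neg).intervalIntegrable _ _)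
    rw [h3]
    simp
    ring
  rw [h2]
  ring

lemma phi_ge {l s : ℝ} (hs : s ≤ 0) : 1 ≤ phi l s := by
  unfold phi
  rw [intervalIntegral.integral_symm]
  have : 0 ≤ ∫ u in s..(0 : ℝ), rho l u :=
    intervalIntegral.integral_nonneg hs fun u _ => (rho_pos l u).le
  linarith

lemma phi_pos {l : ℝ} (hl : 0 < l) (s : ℝ) : 0 < phi l s := by
  rcases le_total 0 s with h | h
  · rw [phi_eq hl h]; exact Real.exp_pos _
  · linarith [phi_ge (l := l) h]

lemma phi_le {l : ℝ} (hl : 0 < l) (s : ℝ) : phi l s ≤ 1 + l := by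
  rcases le_total 0 s with h | h
  · rw [phi_eq hl h]
    have : Real.exp (-s) ≤ 1 := Real.exp_le_one_iff.2 (by linarith)
    linarith
  · unfold phi
    rw [intervalIntegral.integral_symm]
    have h1 : ∫ u in s..(0 : ℝ), rho l u ≤ ∫ u in s..(0 : ℝ), Real.exp (u / l) := by
      refine intervalIntegral.integral_mono_on h ((rho_cont l).intervalIntegrable _ _)
        ((Real.continuous_exp.comp (continuous_id.div_const l)).intervalIntegrable _ _) fun u hu => ?_
      unfold rho
      rw [Real.exp_le_exp]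
      have := le_max_right u (-u / l)
      have h2 : -u / l = -(u / l) := neg_div l u
      linarith
    have h2 : ∫ u in s..(0 : ℝ), Real.exp (u / l) = l - l * Real.exp (s / l) := by
      have h3 := intervalIntegral.integral_eq_sub_of_hasDerivAt (a := s) (b := 0)
        (f := fun u : ℝ => l * Real.exp (u / l)) (f' := fun u => Real.exp (u / l))
        (fun x _ => by
          have := (((hasDerivAt_id x).div_const l).exp).const_mul l
          simp only [id] at this
          have e : l * (Real.exp (x / l) * (1 / l)) = Real.exp (x / l) := by field_simp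
          rw [e] at this
          exact this)
        ((Real.continuous_exp.comp (continuous_id.div_const l)).intervalIntegrable _ _)
      rw [h3]
      simp
    have h3 := Real.exp_pos (s / l)
    have h4 : 0 < l * Real.exp (s / l) := by positivity
    rw [h2] at h1
    linarith

/-- the second entry -/
noncomputable def bet (α t0 l t : ℝ) : ℝ := α - Real.exp (-t0) * phi l (t - t0)

lemma bet_der (α t0 l t : ℝ) :
    HasDerivAt (bet α t0 l) (Real.exp (-t0) * rho l (t - t0)) t := by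
  unfold bet
  have h1 : HasDerivAt (fun t => phi l (t - t0)) (-rho l (t - t0)) t := by
    have h3 := (phi_der l (t - t0)).comp t ((hasDerivAt_id t).sub_const t0)
    rw [mul_one] at h3
    exact h3
  have h2 := (h1.const_mul (Real.exp (-t0))).const_sub α
  simpa using h2

lemma bet_der_le {t0 l : ℝ} (hl : 0 < l) (t : ℝ) :
    |Real.exp (-t0) * rho l (t - t0)| ≤ Real.exp (-t0) := by
  rw [abs_of_pos (mul_pos (Real.exp_pos _) (rho_pos _ _))]
  exact mul_le_of_le_one_right (Real.exp_pos _).le (rho_le hl _)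

lemma bet_cont (α t0 l : ℝ) : Continuous (bet α t0 l) :=
  continuous_iff_continuousAt.2 fun t => (bet_der α t0 l t).continuousAt

lemma bet_abs {α t0 l : ℝ} (hl : 0 < l) (h : Real.exp (-t0) * (1 + l) < 2 * α) (t : ℝ) :
    |bet α t0 l t| < α := by
  have h1 := phi_pos hl (t - t0)
  have h2 := phi_le hl (t - t0)
  have h3 := Real.exp_pos (-t0)
  have h4 : Real.exp (-t0) * phi l (t - t0) ≤ Real.exp (-t0) * (1 + l) :=
    mul_le_mul_of_nonneg_left h2 h3.le
  have h5 : 0 < Real.exp (-t0) * phi l (t - t0) := mul_pos h3 h1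
  unfold bet
  rw [abs_lt]
  constructor <;> linarith

lemma bet_eq {α t0 l t : ℝ} (hl : 0 < l) (ht : t0 ≤ t) : bet α t0 l t = α - Real.exp (-t) := by
  unfold bet
  rw [phi_eq hl (by linarith), ← Real.exp_add]
  congr 2
  ring

/-- the family is of shift type on every window on which the second entry stays away from `± α` -/
lemma fam_sh {α κ D a0 a1 : ℝ} (hα : 0 < α) (hκ1 : 1 ≤ κ) (hκ : κ < α) (hD : 0 ≤ D) {β β' : ℝ → ℝ}
    (hβ : ∀ t ∈ Set.Icc a0 a1, HasDerivAt β (β' t) t) (hb : ∀ t ∈ Set.Icc a0 a1, |β t| ≤ κ)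
    (hd : ∀ t ∈ Set.Icc a0 a1, |β' t| ≤ D) :
    ∀ᶠ p : ℕ in atTop, Sh (Real.log α) a0 a1 p (fun t => Real.log (Real.exp t * (α ^ p - β t ^ p)))
      (fun t => 1 - p * β t ^ (p - 1) * β' t / (α ^ p - β t ^ p)) := by
  have hκ0 : 0 < κ := by linarith
  have hr1 : |κ / α| < 1 := by
    rw [abs_of_pos (by positivity), div_lt_one hα]
    exact hκ
  have h1 := (tendsto_pow_const_mul_const_pow_of_abs_lt_one 2 hr1).const_mul (2 * D + 4)
  rw [mul_zero] at h1
  filter_upwards [h1.eventually_lt_const one_pos, eventually_ge_atTop 2] with p hp hp2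
  have hp2' : (2 : ℝ) ≤ p := by exact_mod_cast hp2
  have hp0 : (0 : ℝ) < p := by linarith
  have hαp : 0 < α ^ p := pow_pos hα p
  set r := (κ / α) ^ p with hr
  have hr0 : 0 < r := by positivity
  have hre : κ ^ p = r * α ^ p := by rw [hr, div_pow]; field_simp
  have hrp : (2 * D + 4) * r * p ≤ 1 / p := by
    rw [le_div_iff₀ hp0]
    nlinarith
  have hr16 : r ≤ 1 / 2 := by
    have h2 : (2 * D + 4) * (p ^ 2 * r) < 1 := hp
    have h3 : 2 * r ≤ (2 * D + 4) * (p ^ 2 * r) := by
      have h4 : (1 : ℝ) ≤ p ^ 2 := by nlinarith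
      have h5 : r ≤ p ^ 2 * r := le_mul_of_one_le_left hr0.le h4
      have h6 : 2 * (p ^ 2 * r) ≤ (2 * D + 4) * (p ^ 2 * r) :=
        mul_le_mul_of_nonneg_right (by linarith) (by positivity)
      linarith
    linarith
  have h2rp : 2 * r ≤ 1 / p := by
    refine le_trans ?_ hrp
    have h3 : 2 * r ≤ (2 * D + 4) * r := mul_le_mul_of_nonneg_right (by linarith) hr0.le
    have h4 : (2 * D + 4) * r ≤ (2 * D + 4) * r * p :=
      le_mul_of_one_le_right (by positivity) (by linarith)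
    linarith
  have hDrp : 2 * D * r * p ≤ 1 / p := by
    refine le_trans ?_ hrp
    have h3 : 0 ≤ 4 * r * p := by positivity
    nlinarith
  have hbp : ∀ t ∈ Set.Icc a0 a1, |β t ^ p| ≤ r * α ^ p := by
    intro t ht
    rw [abs_pow, ← hre]
    exact pow_le_pow_left₀ (abs_nonneg _) (hb t ht) p
  have hden : ∀ t ∈ Set.Icc a0 a1, α ^ p / 2 ≤ α ^ p - β t ^ p := by
    intro t ht
    have h3 := (abs_le.1 (hbp t ht)).2
    have h4 : r * α ^ p ≤ 1 / 2 * α ^ p := mul_le_mul_of_nonneg_right hr16 hαp.le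
    linarith
  refine ⟨fun t ht => ?_, fun t ht => ?_, fun t ht => ?_⟩
  · have h3 := hden t ht
    set x := β t ^ p / α ^ p with hx
    have hxr : |x| ≤ r := by
      rw [hx, abs_div, abs_of_pos hαp, div_le_iff₀ hαp]
      exact hbp t ht
    have hx2 := abs_le.1 hxr
    have h4 : α ^ p - β t ^ p = α ^ p * (1 - x) := by rw [hx]; field_simp
    have h5 : 0 < 1 - x := by linarith
    rw [h4, Real.log_mul (Real.exp_pos t).ne' (by positivity), Real.log_exp,
      Real.log_mul hαp.ne' h5.ne', Real.log_pow]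
    have e : t + (↑p * Real.log α + Real.log (1 - x)) - (Real.log α * ↑p + t) = Real.log (1 - x) := by
      ring
    rw [e]
    have h6 := Real.log_le_sub_one_of_pos h5
    have h7 := Real.one_sub_inv_le_log_of_pos h5
    have h8 : -(2 * r) ≤ 1 - (1 - x)⁻¹ := by
      have h9 : (1 - x)⁻¹ ≤ 1 + 2 * r := by
        rw [inv_le_iff_one_le_mul₀ h5]
        nlinarith [hx2.2]
      linarith
    rw [abs_le]
    constructor
    · linarith
    · linarith [hx2.1]
  · have h3 := hden t ht
    have h4 : 0 < α ^ p - β t ^ p := by linarith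
    have h5 : HasDerivAt (fun t => Real.exp t * (α ^ p - β t ^ p))
        (Real.exp t * (α ^ p - β t ^ p) + Real.exp t * (-(p * β t ^ (p - 1) * β' t))) t := by
      have h6 := ((hβ t ht).pow p).const_sub (α ^ p)
      exact (Real.hasDerivAt_exp t).mul h6
    have h7 := h5.log (mul_pos (Real.exp_pos t) h4).ne'
    have e : (Real.exp t * (α ^ p - β t ^ p) + Real.exp t * (-(p * β t ^ (p - 1) * β' t))) /
        (Real.exp t * (α ^ p - β t ^ p)) = 1 - p * β t ^ (p - 1) * β' t / (α ^ p - β t ^ p) := by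
      have h8 := (Real.exp_pos t).ne'
      have h9 := h4.ne'
      field_simp
      ring
    rw [e] at h7
    exact h7
  · have h3 := hden t ht
    have h4 : 0 < α ^ p - β t ^ p := by linarith
    have e : 1 - p * β t ^ (p - 1) * β' t / (α ^ p - β t ^ p) - 1 =
        -(p * β t ^ (p - 1) * β' t / (α ^ p - β t ^ p)) := by ring
    rw [e, abs_neg, abs_div, abs_of_pos h4, abs_mul, abs_mul, abs_pow, abs_of_pos hp0]
    have h5 : |β t| ^ (p - 1) ≤ κ ^ p :=
      (pow_le_pow_left₀ (abs_nonneg _) (hb t ht) _).trans (pow_le_pow_right₀ hκ1 (by omega))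
    calc (p : ℝ) * |β t| ^ (p - 1) * |β' t| / (α ^ p - β t ^ p) ≤ (p * κ ^ p * D) / (α ^ p / 2) := by
          refine div_le_div₀ (by positivity) ?_ (by positivity) h3
          exact mul_le_mul (mul_le_mul_of_nonneg_left h5 hp0.le) (hd t ht) (abs_nonneg _) (by positivity)
      _ = 2 * D * r * p := by rw [hre]; field_simp
      _ ≤ _ := hDrp

/-- size and Lipschitz constant of the shift -/
lemma fam_G {κ D b0 : ℝ} (hκ1 : 1 ≤ κ) (hD : 0 ≤ D) {β β' : ℝ → ℝ}
    (hβ : ∀ t ∈ Set.Icc b0 (b0 + 1), HasDerivAt β (β' t) t) (hb : ∀ t ∈ Set.Icc b0 (b0 + 1), |β t| ≤ κ)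
    (hd : ∀ t ∈ Set.Icc b0 (b0 + 1), |β' t| ≤ D) (p : ℕ) :
    (∀ t ∈ Set.Icc b0 (b0 + 1), |-(Real.exp t * β t ^ p)| ≤ Real.exp (b0 + 1) * (1 + D) * κ ^ p) ∧
    ∀ s ∈ Set.Icc b0 (b0 + 1), ∀ t ∈ Set.Icc b0 (b0 + 1),
      |-(Real.exp s * β s ^ p) - -(Real.exp t * β t ^ p)| ≤
        Real.exp (b0 + 1) * (1 + D) * ((p : ℝ) + 1) * κ ^ p * |s - t| := by
  have hκp : 0 < κ ^ p := by positivity
  have hE := Real.exp_pos (b0 + 1)
  have hexp : ∀ t ∈ Set.Icc b0 (b0 + 1), Real.exp t ≤ Real.exp (b0 + 1) := fun t ht =>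
    Real.exp_le_exp.2 ht.2
  have hbp : ∀ t ∈ Set.Icc b0 (b0 + 1), |β t| ^ p ≤ κ ^ p := fun t ht =>
    pow_le_pow_left₀ (abs_nonneg _) (hb t ht) p
  constructor
  · intro t ht
    rw [abs_neg, abs_mul, abs_of_pos (Real.exp_pos t), abs_pow]
    calc Real.exp t * |β t| ^ p ≤ Real.exp (b0 + 1) * κ ^ p :=
          mul_le_mul (hexp t ht) (hbp t ht) (by positivity) hE.le
      _ ≤ Real.exp (b0 + 1) * (1 + D) * κ ^ p := by
          refine mul_le_mul_of_nonneg_right ?_ hκp.le
          nlinarith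
  · intro s hs t ht
    have h1 := Convex.norm_image_sub_le_of_norm_hasDerivWithin_le (𝕜 := ℝ)
      (f := fun t => -(Real.exp t * β t ^ p))
      (f' := fun t => -(Real.exp t * β t ^ p + Real.exp t * (p * β t ^ (p - 1) * β' t)))
      (C := Real.exp (b0 + 1) * (1 + D) * ((p : ℝ) + 1) * κ ^ p)
      (s := Set.Icc b0 (b0 + 1)) (x := t) (y := s)
      (fun x hx => (((Real.hasDerivAt_exp x).mul ((hβ x hx).pow p)).neg).hasDerivWithinAt)
      (fun x hx => by
        rw [Real.norm_eq_abs, abs_neg]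
        have h2 : |β x| ^ (p - 1) ≤ κ ^ p :=
          (pow_le_pow_left₀ (abs_nonneg _) (hb x hx) _).trans (pow_le_pow_right₀ hκ1 (by omega))
        have h3 : |Real.exp x * β x ^ p| ≤ Real.exp (b0 + 1) * κ ^ p := by
          rw [abs_mul, abs_of_pos (Real.exp_pos x), abs_pow]
          exact mul_le_mul (hexp x hx) (hbp x hx) (by positivity) hE.le
        have h4 : |Real.exp x * (p * β x ^ (p - 1) * β' x)| ≤ Real.exp (b0 + 1) * (p * κ ^ p * D) := by
          rw [abs_mul, abs_of_pos (Real.exp_pos x), abs_mul, abs_mul, abs_pow,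
            abs_of_nonneg (Nat.cast_nonneg p)]
          refine mul_le_mul (hexp x hx) ?_ (by positivity) hE.le
          exact mul_le_mul (mul_le_mul_of_nonneg_left h2 (Nat.cast_nonneg p)) (hd x hx)
            (abs_nonneg _) (by positivity)
        refine (abs_add_le _ _).trans ((add_le_add h3 h4).trans ?_)
        have h5 : (0 : ℝ) ≤ p := Nat.cast_nonneg p
        have e : Real.exp (b0 + 1) * (1 + D) * ((p : ℝ) + 1) * κ ^ p =
            Real.exp (b0 + 1) * κ ^ p + Real.exp (b0 + 1) * (p * κ ^ p * D) +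
            Real.exp (b0 + 1) * κ ^ p * (p + D) := by ring
        rw [e]
        have h6 : 0 ≤ Real.exp (b0 + 1) * κ ^ p * (p + D) := by positivity
        linarith)
      (convex_Icc _ _) ht hs
    simpa [Real.norm_eq_abs] using h1

/-- a bound for the second entry on a window -/
lemma bet_window {α t0 l : ℝ} (hα : 1 < α) (hl : 0 < l) (h : Real.exp (-t0) * (1 + l) < 2 * α)
    {a0 a1 : ℝ} (h01 : a0 ≤ a1) : ∃ κ : ℝ, 1 ≤ κ ∧ κ < α ∧ ∀ t ∈ Set.Icc a0 a1, |bet α t0 l t| ≤ κ := by
  obtain ⟨x, hx, hm⟩ := (isCompact_Icc (a := a0) (b := a1)).exists_isMaxOn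
    (Set.nonempty_Icc.2 h01) ((bet_cont α t0 l).abs.continuousOn)
  refine ⟨max 1 |bet α t0 l x|, le_max_left _ _, max_lt hα (bet_abs hl h x), fun t ht => ?_⟩
  exact (hm ht).trans (le_max_right _ _)

/-- the statements for the extended family -/
theorem pt_bet {a : ℕ} (ha : 2 ≤ a) {t0 l : ℝ} (hl : 0 < l) (h : Real.exp (-t0) * (1 + l) < 2 * a)
    (S : Set ℕ) : ∀ᵐ t : ℝ, t ∈ Set.Ici t0 →
    Pt (fun p => ⌊((a : ℝ) ^ p - ((a : ℝ) - Real.exp (-t)) ^ p) / ((a : ℝ) - ((a : ℝ) - Real.exp (-t)))⌋₊)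
      (Real.exp Real.eulerMascheroniConstant / Real.log a) S := by
  have har : (2 : ℝ) ≤ a := by exact_mod_cast ha
  have ha0 : (0 : ℝ) < a := by linarith
  have ha1 : (1 : ℝ) < a := by linarith
  set y : ℕ → ℝ → ℝ := fun p t => Real.log (Real.exp t * ((a : ℝ) ^ p - bet a t0 l t ^ p)) with hy
  set y' : ℕ → ℝ → ℝ := fun p t => 1 - p * bet a t0 l t ^ (p - 1) *
    (Real.exp (-t0) * rho l (t - t0)) / ((a : ℝ) ^ p - bet a t0 l t ^ p) with hy'
  have hym : ∀ p, Measurable (y p) := fun p =>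
    Real.measurable_log.comp (Real.continuous_exp.mul (continuous_const.sub
      ((bet_cont a t0 l).pow p))).measurable
  have hfam : ∀ a0 a1 : ℝ, a0 < a1 → ∀ᶠ p : ℕ in atTop, Sh (Real.log a) a0 a1 p (y p) (y' p) := by
    intro a0 a1 h01
    obtain ⟨κ, hκ1, hκ, hb⟩ := bet_window ha1 hl h h01.le
    exact fam_sh ha0 hκ1 hκ (Real.exp_pos (-t0)).le (fun t _ => bet_der a t0 l t) hb
      (fun t _ => bet_der_le hl t)
  have hpos : ∀ p : ℕ, 1 ≤ p → ∀ t, 0 < (a : ℝ) ^ p - bet a t0 l t ^ p := by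
    intro p hp t
    have h1 := bet_abs hl h t
    have h2 : |bet a t0 l t ^ p| < (a : ℝ) ^ p := by
      rw [abs_pow]
      exact pow_lt_pow_left₀ h1 (abs_nonneg _) (by omega)
    have := le_abs_self (bet a t0 l t ^ p)
    linarith
  have hnear : ∀ b0 : ℝ, ∃ K : ℝ, 0 < K ∧ ∃ P : ℕ, ∀ p ≥ P, ∀ q : ℕ, p < q → q ≤ 2 * p →
      ∫ t in Set.Ioc b0 (b0 + 1), Pool.Agent.H305R2.ff p (y p t) * Pool.Agent.H305R2.ff q (y q t) ≤
        K * ((Real.log p / p) ^ 2 + ((2 : ℝ) ^ (q - p))⁻¹ * (Real.log p / p)) := by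
    intro b0
    obtain ⟨κ, hκ1, hκ, hb⟩ := bet_window ha1 hl h (show b0 ≤ b0 + 1 by linarith)
    have hg := fun p => fam_G hκ1 (Real.exp_pos (-t0)).le (fun t _ => bet_der a t0 l t) hb
      (fun t _ => bet_der_le hl t) p
    refine near_lip ha hκ1 hκ (G := fun p t => -(Real.exp t * bet a t0 l t ^ p)) (y' := y') b0
      (fun p => (hg p).1) (fun p => (hg p).2) ?_ hym (hfam b0 (b0 + 1) (by linarith))
    filter_upwards [eventually_ge_atTop 1] with p hp t _
    simp only [hy]
    rw [Real.exp_log (mul_pos (Real.exp_pos t) (hpos p hp t))]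
    ring
  refine pt_sh (Real.log_pos ha1) hym hfam hnear (D := Set.Ici t0)
    (val := fun p t => ((a : ℝ) ^ p - ((a : ℝ) - Real.exp (-t)) ^ p) /
      ((a : ℝ) - ((a : ℝ) - Real.exp (-t)))) ?_ S
  intro t ht
  filter_upwards [eventually_ge_atTop 1] with p hp
  have h1 := hpos p hp t
  have h2 : bet (a : ℝ) t0 l t = a - Real.exp (-t) := bet_eq hl ht
  rw [h2] at h1
  have h3 := Real.exp_pos (-t)
  have e : ((a : ℝ) ^ p - ((a : ℝ) - Real.exp (-t)) ^ p) / ((a : ℝ) - ((a : ℝ) - Real.exp (-t))) =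
      Real.exp t * ((a : ℝ) ^ p - ((a : ℝ) - Real.exp (-t)) ^ p) := by
    have e1 : (a : ℝ) - ((a : ℝ) - Real.exp (-t)) = (Real.exp t)⁻¹ := by
      rw [← Real.exp_neg]; ring
    rw [e1, div_inv_eq_mul, mul_comm]
  refine ⟨?_, ?_⟩
  · rw [e]
    exact mul_pos (Real.exp_pos t) h1
  · rw [e]
    simp only [hy]
    rw [h2]

/-- **The statements for a fixed integer `a > 1` and almost every real `b` with `|b| < a`.** -/
theorem pt_second {a : ℕ} (ha : 2 ≤ a) (S : Set ℕ) : ∀ᵐ b : ℝ, |b| < a →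
    Pt (fun p => ⌊((a : ℝ) ^ p - b ^ p) / ((a : ℝ) - b)⌋₊)
      (Real.exp Real.eulerMascheroniConstant / Real.log a) S := by
  have har : (2 : ℝ) ≤ a := by exact_mod_cast ha
  have ha0 : (0 : ℝ) < a := by linarith
  -- all the parameters
  have h1 : ∀ᵐ t : ℝ, Real.exp (-t) < 2 * a →
      Pt (fun p => ⌊((a : ℝ) ^ p - ((a : ℝ) - Real.exp (-t)) ^ p) / ((a : ℝ) - ((a : ℝ) - Real.exp (-t)))⌋₊)
        (Real.exp Real.eulerMascheroniConstant / Real.log a) S := by
    have h2 : ∀ k : ℕ, ∀ᵐ t : ℝ, t ∈ Set.Ici (-Real.log (2 * a) + 1 / ((k : ℝ) + 1)) →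
        Pt (fun p => ⌊((a : ℝ) ^ p - ((a : ℝ) - Real.exp (-t)) ^ p) /
          ((a : ℝ) - ((a : ℝ) - Real.exp (-t)))⌋₊)
          (Real.exp Real.eulerMascheroniConstant / Real.log a) S := by
      intro k
      set t0 := -Real.log (2 * a) + 1 / ((k : ℝ) + 1) with ht0
      have hk : 0 < 1 / ((k : ℝ) + 1) := by positivity
      have h3 : Real.exp (-t0) < 2 * a := by
        have e : -t0 = Real.log (2 * a) - 1 / ((k : ℝ) + 1) := by rw [ht0]; ring
        rw [e, ← Real.lt_log_iff_exp_lt (by positivity)]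
        linarith
      have h4 := Real.exp_pos (-t0)
      set l := (2 * a - Real.exp (-t0)) / (2 * Real.exp (-t0)) with hl
      have hl0 : 0 < l := div_pos (by linarith) (by positivity)
      have h5 : Real.exp (-t0) * (1 + l) < 2 * a := by
        have e : Real.exp (-t0) * (1 + l) = (Real.exp (-t0) + 2 * a) / 2 := by
          rw [hl]; field_simp; ring
        rw [e]
        linarith
      exact pt_bet ha hl0 h5 S
    filter_upwards [ae_all_iff.2 h2] with t ht htc
    have h3 : 0 < t + Real.log (2 * a) := by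
      rw [← Real.lt_log_iff_exp_lt (by positivity)] at htc
      linarith
    obtain ⟨k, hk⟩ := exists_nat_gt (1 / (t + Real.log (2 * a)))
    refine ht k ?_
    rw [Set.mem_Ici]
    have h4 : 1 / ((k : ℝ) + 1) < t + Real.log (2 * a) := by
      have hk0 : (0 : ℝ) ≤ k := Nat.cast_nonneg k
      rw [div_lt_iff₀ h3] at hk
      rw [div_lt_iff₀ (by linarith)]
      nlinarith
    linarith
  -- change of variable
  set Q : ℝ → Prop := fun b => |b| < a → Pt (fun p => ⌊((a : ℝ) ^ p - b ^ p) / ((a : ℝ) - b)⌋₊)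
      (Real.exp Real.eulerMascheroniConstant / Real.log a) S with hQ
  set f : ℝ → ℝ := fun t => (a : ℝ) - Real.exp (-t) with hf
  have hfd : Differentiable ℝ f := by
    intro t
    exact ((differentiableAt_id.neg).exp).const_sub _
  have h2 : ∀ᵐ t : ℝ, Q (f t) := by
    filter_upwards [h1] with t ht hb
    refine ht ?_
    have := (abs_lt.1 hb).1
    simp only [hf] at this
    linarith
  have h3 : volume (f '' {t | ¬ Q (f t)}) = 0 :=
    MeasureTheory.addHaar_image_eq_zero_of_differentiableOn_of_addHaar_eq_zero volume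
      hfd.differentiableOn (ae_iff.1 h2)
  rw [ae_iff]
  refine measure_mono_null ?_ h3
  intro b hb
  have hb1 : |b| < a := by
    by_contra hcon
    exact hb fun h => absurd h hcon
  have hab : 0 < (a : ℝ) - b := by linarith [(abs_lt.1 hb1).2]
  have hfb : f (-Real.log ((a : ℝ) - b)) = b := by
    simp only [hf]
    rw [neg_neg, Real.exp_log hab]
    ring
  refine ⟨-Real.log ((a : ℝ) - b), ?_, hfb⟩
  show ¬ Q (f (-Real.log ((a : ℝ) - b)))
  rw [hfb]
  exact hb

end Pool.Agent.K3h13.RB
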